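import Mathlib

/-!
# MP_a19cb6_nt: a bit sieve with big natural numbers, evaluated by the kernel

All functions are written with the kernel-accelerated operations on `Nat`.
-/

namespace Wolf6

/-- Bits at `0, q, 2q, …, (2^n-1) q`. -/
def rep (q n : Nat) : Nat :=
  Nat.rec 1 (fun n r => Nat.lor r (Nat.shiftLeft r (Nat.mul q (Nat.pow 2 n)))) n

/-- Bits at `0, q, …, (t-1) q` (for `t > 0`). -/
def pat (q t : Nat) : Nat :=
  Nat.lor (rep q (Nat.log2 t))
    (Nat.shiftLeft (rep q (Nat.log2 t)) (Nat.mul q (Nat.sub t (Nat.pow 2 (Nat.log2 t)))))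

/-- Bits at all multiples of `q` that are at most `L + q`. -/
def pq (L q : Nat) : Nat := pat q (Nat.succ (Nat.div (Nat.add L q) q))

/-- The inverse of 30 modulo `q` (for `q` coprime to 30). -/
def inv30 (q : Nat) : Nat :=
  Nat.div (Nat.succ (Nat.mul (Nat.sub 30 (Nat.mod (Nat.pow q 3) 30)) q)) 30

/-- Bit `j < L` is set iff some `q` in `l` divides `b + 30 j`. -/
def orL (L b : Nat) (l : List Nat) : Nat :=
  List.rec 0 (fun q _ r => Nat.lor (Nat.shiftRight (pq L q) (Nat.mod (Nat.mul b (inv30 q)) q)) r) l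

/-- Bit `j < L` is set iff some `q` in some list of `l` divides `b + 30 j`. -/
def orLL (L b : Nat) (l : List (List Nat)) : Nat :=
  List.rec 0 (fun q _ r => Nat.lor (orL L b q) r) l

/-- Bitwise `x` and not `y`. -/
def andNot (x y : Nat) : Nat := Nat.xor x (Nat.land x y)

/-- `∑_{j<n} f j` -/
def sumTo (f : Nat → Nat) (n : Nat) : Nat := Nat.rec 0 (fun k r => Nat.add r (f k)) n

/-- `∑_{j<n} 2^(16 j)` -/
def m16 (n : Nat) : Nat := Nat.div (Nat.sub (Nat.pow 2 (Nat.mul 16 n)) 1) 65535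

/-- The number of bits of `x < 2^(16 n)`, modulo 65535. -/
def pcnt (n x : Nat) : Nat :=
  Nat.mod (sumTo (fun r => Nat.land (Nat.shiftRight x r) (m16 n)) 16) 65535

/-- The number of bits of `G` in the `i`-th block of `16 n` bits, modulo 65535. -/
def blk (n i G : Nat) : Nat :=
  pcnt n (Nat.mod (Nat.shiftRight G (Nat.mul (Nat.mul 16 n) i)) (Nat.pow 2 (Nat.mul 16 n)))

/-- A lower bound (times `10^15`) for the contribution of the `i`-th block. -/
def blkSum (a n i G1 G7 G11 G13 G17 G23 : Nat) : Nat :=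
  Nat.mul (Nat.add (blk n i G1) (Nat.add (blk n i G7) (Nat.add (blk n i G11)
      (Nat.add (blk n i G13) (Nat.add (blk n i G17) (blk n i G23))))))
    (Nat.div 1000000000000000 (Nat.mul 15 (Nat.add a (Nat.mul (Nat.mul 16 n) (Nat.succ i)))))

/-- Sum over `m` blocks. -/
def segSum (a n m G1 G7 G11 G13 G17 G23 : Nat) : Nat :=
  sumTo (fun i => blkSum a n i G1 G7 G11 G13 G17 G23) m

/-- The masks of the pairs `(30k+c, 30k+c+6)`, for `c = 1, 7, 11, 13, 17, 23`. -/
def segM (a n m F M1 M7 M11 M13 M17 M19 M23 M29 : Nat) : Nat :=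
  segSum a n m (andNot F (Nat.lor M1 M7)) (andNot M11 (Nat.lor M7 M13))
    (andNot M13 (Nat.lor M11 M17)) (andNot M17 (Nat.lor M13 M19))
    (andNot M19 (Nat.lor M17 M23)) (andNot F (Nat.lor M23 M29))

/-- A lower bound (times `10^15`) for the contribution of the segment
`30 a ≤ p < 30 (a + 16 n m)`. -/
def segVal (Q : List (List Nat)) (a n m : Nat) : Nat :=
  segM a n m (Nat.sub (Nat.pow 2 (Nat.mul (Nat.mul 16 n) m)) 1)
    (orLL (Nat.mul (Nat.mul 16 n) m) (Nat.add (Nat.mul 30 a) 1) Q)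
    (orLL (Nat.mul (Nat.mul 16 n) m) (Nat.add (Nat.mul 30 a) 7) Q)
    (orLL (Nat.mul (Nat.mul 16 n) m) (Nat.add (Nat.mul 30 a) 11) Q)
    (orLL (Nat.mul (Nat.mul 16 n) m) (Nat.add (Nat.mul 30 a) 13) Q)
    (orLL (Nat.mul (Nat.mul 16 n) m) (Nat.add (Nat.mul 30 a) 17) Q)
    (orLL (Nat.mul (Nat.mul 16 n) m) (Nat.add (Nat.mul 30 a) 19) Q)
    (orLL (Nat.mul (Nat.mul 16 n) m) (Nat.add (Nat.mul 30 a) 23) Q)
    (orLL (Nat.mul (Nat.mul 16 n) m) (Nat.add (Nat.mul 30 a) 29) Q)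

/-- The contribution (times `10^15`, rounded down) of the pair `(p, p+6)` if bit `j` of `G` is
set. -/
def bitVal (G j p : Nat) : Nat :=
  Nat.mul (Nat.land 1 (Nat.shiftRight G j))
    (Nat.add (Nat.div 1000000000000000 p) (Nat.div 1000000000000000 (Nat.add p 6)))

/-- The contribution of the six residue classes at `k = a + j`. -/
def lowK (a j G1 G7 G11 G13 G17 G23 : Nat) : Nat :=
  Nat.add (bitVal G1 j (Nat.add (Nat.mul 30 (Nat.add a j)) 1))
  (Nat.add (bitVal G7 j (Nat.add (Nat.mul 30 (Nat.add a j)) 7))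
  (Nat.add (bitVal G11 j (Nat.add (Nat.mul 30 (Nat.add a j)) 11))
  (Nat.add (bitVal G13 j (Nat.add (Nat.mul 30 (Nat.add a j)) 13))
  (Nat.add (bitVal G17 j (Nat.add (Nat.mul 30 (Nat.add a j)) 17))
    (bitVal G23 j (Nat.add (Nat.mul 30 (Nat.add a j)) 23))))))

/-- Sum over `m1 * m2` values of `k`. -/
def lowSum (a m1 m2 G1 G7 G11 G13 G17 G23 : Nat) : Nat :=
  sumTo (fun i => sumTo (fun j => lowK a (Nat.add (Nat.mul m2 i) j) G1 G7 G11 G13 G17 G23) m2) m1

/-- The masks, for the low range. -/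
def lowM (a m1 m2 F M1 M7 M11 M13 M17 M19 M23 M29 : Nat) : Nat :=
  lowSum a m1 m2 (andNot F (Nat.lor M1 M7)) (andNot M11 (Nat.lor M7 M13))
    (andNot M13 (Nat.lor M11 M17)) (andNot M17 (Nat.lor M13 M19))
    (andNot M19 (Nat.lor M17 M23)) (andNot F (Nat.lor M23 M29))

/-- A lower bound (times `10^15`) for the contribution of the segment
`30 a ≤ p < 30 (a + m1 m2)`, bit by bit. -/
def lowVal (Q : List (List Nat)) (a m1 m2 : Nat) : Nat :=
  lowM a m1 m2 (Nat.sub (Nat.pow 2 (Nat.mul m1 m2)) 1)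
    (orLL (Nat.mul m1 m2) (Nat.add (Nat.mul 30 a) 1) Q)
    (orLL (Nat.mul m1 m2) (Nat.add (Nat.mul 30 a) 7) Q)
    (orLL (Nat.mul m1 m2) (Nat.add (Nat.mul 30 a) 11) Q)
    (orLL (Nat.mul m1 m2) (Nat.add (Nat.mul 30 a) 13) Q)
    (orLL (Nat.mul m1 m2) (Nat.add (Nat.mul 30 a) 17) Q)
    (orLL (Nat.mul m1 m2) (Nat.add (Nat.mul 30 a) 19) Q)
    (orLL (Nat.mul m1 m2) (Nat.add (Nat.mul 30 a) 23) Q)
    (orLL (Nat.mul m1 m2) (Nat.add (Nat.mul 30 a) 29) Q)

/-- Primes below 131. -/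
def primorial131 : Nat :=
  2 * 3 * 5 * 7 * 11 * 13 * 17 * 19 * 23 * 29 * 31 * 37 * 41 * 43 * 47 * 53 * 59 * 61 * 67 * 71
    * 73 * 79 * 83 * 89 * 97 * 101 * 103 * 107 * 109 * 113 * 127 * 131

/-- Every number in `[n, n + f)` is in `l` or has a common factor with `N`. -/
def walk (N f : Nat) : Nat → List Nat → Bool :=
  Nat.rec (fun _ _ => true)
    (fun _ ih n l =>
      List.rec (and (Nat.ble 2 (Nat.gcd n N)) (ih (Nat.succ n) []))
        (fun q t _ => cond (Nat.beq n q) (ih (Nat.succ n) t)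
          (and (Nat.ble 2 (Nat.gcd n N)) (ih (Nat.succ n) l))) l) f

/-- All entries of `l` are in `[7, P)` and coprime to 30 (in the form needed). -/
def okL (P : Nat) (l : List Nat) : Bool :=
  List.rec true (fun q _ r => and (and (Nat.ble 7 q) (Nat.blt q P))
    (and (Nat.beq (Nat.mod (Nat.mul 30 (inv30 q)) q) 1) r)) l

end Wolf6
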