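import Pool.Agent.Lib.MP_a19cb6_nt.Sieve

/-!
# MP_a19cb6_nt: from sieve values to lower bounds of the sum over gap pairs
-/

namespace Wolf6

open Finset

/-- `p` and `p + h` are consecutive primes. -/
def IsGapPair (h p : ℕ) : Prop :=
  p.Prime ∧ (p + h).Prime ∧ ∀ m : ℕ, p < m → m < p + h → ¬ m.Prime

open Classical in
/-- The contribution of `p` to the generalized Brun constant for `h = 6`. -/
noncomputable def gterm (p : ℕ) : ℝ :=
  if IsGapPair 6 p then 1 / (p : ℝ) + 1 / ((p + 6 : ℕ) : ℝ) else 0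

theorem gterm_nonneg (p : ℕ) : 0 ≤ gterm p := by
  unfold gterm
  split_ifs
  · positivity
  · exact le_rfl

theorem gterm_of_gap {p : ℕ} (h : IsGapPair 6 p) :
    gterm p = 1 / (p : ℝ) + 1 / ((p + 6 : ℕ) : ℝ) := by
  unfold gterm
  rw [if_pos h]

/-- The lower bound `V / 10^15` for the contribution of the primes `p < 30 a`. -/
def LB (a V : ℕ) : Prop := (V : ℝ) / 10 ^ 15 ≤ ∑ p ∈ range (30 * a), gterm p

/-- The six relevant residue classes. -/
noncomputable def six (k : ℕ) : ℝ :=
  gterm (30 * k + 1) + (gterm (30 * k + 7) + (gterm (30 * k + 11) + (gterm (30 * k + 13) +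
    (gterm (30 * k + 17) + gterm (30 * k + 23)))))

theorem six_le (k : ℕ) : six k ≤ ∑ c ∈ range 30, gterm (30 * k + c) := by
  have h : ∑ c ∈ ({1, 7, 11, 13, 17, 23} : Finset ℕ), gterm (30 * k + c) ≤
      ∑ c ∈ range 30, gterm (30 * k + c) := by
    refine Finset.sum_le_sum_of_subset_of_nonneg (by decide) ?_
    intro i _ _
    exact gterm_nonneg _
  refine le_trans (le_of_eq ?_) h
  rw [Finset.sum_insert (by decide), Finset.sum_insert (by decide), Finset.sum_insert (by decide),
    Finset.sum_insert (by decide), Finset.sum_insert (by decide), Finset.sum_singleton]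
  rfl

theorem sum_blocks (g : ℕ → ℝ) (a L : ℕ) :
    ∑ p ∈ range (30 * (a + L)), g p =
      ∑ p ∈ range (30 * a), g p + ∑ k ∈ range L, ∑ c ∈ range 30, g (30 * (a + k) + c) := by
  induction L with
  | zero => simp
  | succ L ih =>
    have h : 30 * (a + (L + 1)) = 30 * (a + L) + 30 := by ring
    rw [h, Finset.sum_range_add, ih, Finset.sum_range_succ _ L, add_assoc]

theorem lb_of_six {a L V v : ℕ} (h : LB a V)
    (hv : (v : ℝ) / 10 ^ 15 ≤ ∑ k ∈ range L, six (a + k)) : LB (a + L) (V + v) := by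
  unfold LB at *
  rw [sum_blocks]
  have h1 : ∑ k ∈ range L, six (a + k) ≤
      ∑ k ∈ range L, ∑ c ∈ range 30, gterm (30 * (a + k) + c) :=
    Finset.sum_le_sum fun k _ => six_le (a + k)
  push_cast
  rw [add_div]
  linarith

theorem sum_range_mul' (g : ℕ → ℝ) (b m : ℕ) :
    ∑ t ∈ range (b * m), g t = ∑ i ∈ range m, ∑ j ∈ range b, g (b * i + j) := by
  induction m with
  | zero => simp
  | succ m ih => rw [mul_add, mul_one, Finset.sum_range_add, ih, Finset.sum_range_succ _ m]

/-- The contribution of a set bit. -/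
theorem bit_le {x : ℕ} {j p E W : ℕ} (hx : x.testBit j = true → IsGapPair 6 p) (hE : 0 < E)
    (hp : p + 6 ≤ 30 * E) (hW : W * (15 * E) ≤ 10 ^ 15) :
    ((x.testBit j).toNat : ℝ) * ((W : ℝ) / 10 ^ 15) ≤ gterm p := by
  cases hb : x.testBit j with
  | false =>
    simp only [Bool.toNat_false, Nat.cast_zero, zero_mul]
    exact gterm_nonneg p
  | true =>
    have hg := hx hb
    have hp0 : 0 < p := hg.1.pos
    rw [gterm_of_gap hg]
    simp only [Bool.toNat_true, Nat.cast_one, one_mul]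
    have hE' : (0 : ℝ) < E := by exact_mod_cast hE
    have h1 : (W : ℝ) / 10 ^ 15 ≤ 1 / (15 * E) := by
      rw [div_le_div_iff₀ (by positivity) (by positivity)]
      have : ((W * (15 * E) : ℕ) : ℝ) ≤ ((10 ^ 15 : ℕ) : ℝ) := by exact_mod_cast hW
      push_cast at this
      linarith
    have hpr : ((p + 6 : ℕ) : ℝ) ≤ 30 * E := by exact_mod_cast hp
    have hpos : (0 : ℝ) < p := by exact_mod_cast hp0
    have h2 : 1 / (30 * (E : ℝ)) ≤ 1 / (p : ℝ) := by
      refine one_div_le_one_div_of_le hpos ?_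
      push_cast at hpr
      linarith
    have h3 : 1 / (30 * (E : ℝ)) ≤ 1 / ((p + 6 : ℕ) : ℝ) := by
      refine one_div_le_one_div_of_le (by positivity) hpr
    have h4 : 1 / (15 * (E : ℝ)) = 1 / (30 * (E : ℝ)) + 1 / (30 * (E : ℝ)) := by
      field_simp
      norm_num
    linarith

/-- The hypothesis that the six masks mark only gap pairs. -/
structure Masks (a L G1 G7 G11 G13 G17 G23 : ℕ) : Prop where
  h1 : ∀ j < L, G1.testBit j = true → IsGapPair 6 (30 * (a + j) + 1)
  h7 : ∀ j < L, G7.testBit j = true → IsGapPair 6 (30 * (a + j) + 7)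
  h11 : ∀ j < L, G11.testBit j = true → IsGapPair 6 (30 * (a + j) + 11)
  h13 : ∀ j < L, G13.testBit j = true → IsGapPair 6 (30 * (a + j) + 13)
  h17 : ∀ j < L, G17.testBit j = true → IsGapPair 6 (30 * (a + j) + 17)
  h23 : ∀ j < L, G23.testBit j = true → IsGapPair 6 (30 * (a + j) + 23)

theorem blkSum_le {a n m i G1 G7 G11 G13 G17 G23 : ℕ} (hn : 0 < n)
    (h : Masks a (16 * n * m) G1 G7 G11 G13 G17 G23) (hi : i < m) :
    ((blkSum a n i G1 G7 G11 G13 G17 G23 : ℕ) : ℝ) / 10 ^ 15 ≤
      ∑ j ∈ range (16 * n), six (a + (16 * n * i + j)) := by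
  set E : ℕ := a + 16 * n * (i + 1) with hE
  set W : ℕ := 10 ^ 15 / (15 * E) with hWdef
  have hE0 : 0 < E := by
    have : 0 < 16 * n * (i + 1) := by positivity
    omega
  have hW : W * (15 * E) ≤ 10 ^ 15 := Nat.div_mul_le_self _ _
  have hdef : blkSum a n i G1 G7 G11 G13 G17 G23 =
      (blk n i G1 + (blk n i G7 + (blk n i G11 + (blk n i G13 + (blk n i G17 + blk n i G23))))) * W :=
    rfl
  have hjL : ∀ j ∈ range (16 * n), 16 * n * i + j < 16 * n * m := by
    intro j hj
    rw [mem_range] at hj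
    have : 16 * n * i + 16 * n ≤ 16 * n * m := by
      have := Nat.mul_le_mul_left (16 * n) (Nat.succ_le_of_lt hi)
      rw [Nat.mul_succ] at this
      exact this
    omega
  have hW0 : (0 : ℝ) ≤ (W : ℝ) / 10 ^ 15 := by positivity
  -- each class
  have key : ∀ (G c : ℕ), c ≤ 23 →
      (∀ j < 16 * n * m, G.testBit j = true → IsGapPair 6 (30 * (a + j) + c)) →
      ((blk n i G : ℕ) : ℝ) * ((W : ℝ) / 10 ^ 15) ≤
        ∑ j ∈ range (16 * n), gterm (30 * (a + (16 * n * i + j)) + c) := by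
    intro G c hc hG
    have h1 : ((blk n i G : ℕ) : ℝ) ≤
        ((∑ j ∈ range (16 * n), (G.testBit (16 * n * i + j)).toNat : ℕ) : ℝ) := by
      exact_mod_cast blk_le n i G
    refine (mul_le_mul_of_nonneg_right h1 hW0).trans ?_
    push_cast
    rw [Finset.sum_mul]
    refine Finset.sum_le_sum fun j hj => ?_
    refine bit_le (hG _ (hjL j hj)) hE0 ?_ hW
    rw [mem_range] at hj
    have : 16 * n * (i + 1) = 16 * n * i + 16 * n := by ring
    rw [hE, this]
    omega
  rw [hdef]
  push_cast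
  rw [mul_div_assoc, add_mul, add_mul, add_mul, add_mul, add_mul]
  unfold six
  simp only [Finset.sum_add_distrib]
  have e1 := key G1 1 (by norm_num) h.h1
  have e7 := key G7 7 (by norm_num) h.h7
  have e11 := key G11 11 (by norm_num) h.h11
  have e13 := key G13 13 (by norm_num) h.h13
  have e17 := key G17 17 (by norm_num) h.h17
  have e23 := key G23 23 (by norm_num) h.h23
  linarith

theorem segSum_le {a n m G1 G7 G11 G13 G17 G23 : ℕ} (hn : 0 < n)
    (h : Masks a (16 * n * m) G1 G7 G11 G13 G17 G23) :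
    ((segSum a n m G1 G7 G11 G13 G17 G23 : ℕ) : ℝ) / 10 ^ 15 ≤
      ∑ k ∈ range (16 * n * m), six (a + k) := by
  have hdef : segSum a n m G1 G7 G11 G13 G17 G23 =
      ∑ i ∈ range m, blkSum a n i G1 G7 G11 G13 G17 G23 := by
    rw [← sumTo_eq]
    rfl
  rw [hdef, sum_range_mul' (fun k => six (a + k)) (16 * n) m]
  push_cast
  rw [Finset.sum_div]
  refine Finset.sum_le_sum fun i hi => ?_
  exact blkSum_le hn h (mem_range.1 hi)

theorem testBit_ones {L j : ℕ} (hj : j < L) : (Nat.sub (Nat.pow 2 L) 1).testBit j = true := by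
  have : (2 ^ L - 1).testBit j = true := by
    rw [Nat.testBit_two_pow_sub_one]
    simpa using hj
  exact this

theorem not_prime_of_dvd {m d : ℕ} (hd : d ∣ m) (h1 : d ≠ 1) (h2 : d < m) : ¬ m.Prime := by
  intro hp
  rcases (Nat.dvd_prime hp).1 hd with h | h
  · exact h1 h
  · omega

theorem testBit_class {Q : List (List ℕ)} {P a L c : ℕ} (hQ : QOK Q P) (hP : P ≤ 30 * a)
    (hP2 : 30 * (a + L) ≤ P * P) (ha : 0 < a) (hc : Nat.Coprime c 30) (hc30 : c < 30)
    {j : ℕ} (hj : j < L) :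
    (orLL L (Nat.add (Nat.mul 30 a) c) Q).testBit j = true ↔ ¬ (30 * (a + j) + c).Prime := by
  rw [testBit_orLL hj Q hQ.ok]
  have heq : Nat.add (Nat.mul 30 a) c + 30 * j = 30 * (a + j) + c := by
    show 30 * a + c + 30 * j = _
    ring
  rw [heq]
  refine (hQ.prime_iff (by omega) (by omega) ?_ (by omega)).symm
  have : Nat.Coprime (c + (a + j) * 30) 30 := (Nat.coprime_add_mul_right_left c 30 (a + j)).2 hc
  have h2 : 30 * (a + j) + c = c + (a + j) * 30 := by ring
  rwa [h2]

end Wolf6
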