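import Pool.Agent.Lib.MP_a19cb6_nt.Defs

section
/-!
# MP_a19cb6_nt: counting bits
-/
namespace Wolf6

open Finset

theorem sumTo_eq (f : ℕ → ℕ) (n : ℕ) : sumTo f n = ∑ j ∈ range n, f j := by
  induction n with
  | zero => rfl
  | succ n ih =>
    rw [sum_range_succ, ← ih]
    rfl

theorem m16_eq (n : ℕ) : m16 n = (2 ^ (16 * n) - 1) / 65535 := rfl

theorem m16_mul (n : ℕ) : m16 n * 65535 = 2 ^ (16 * n) - 1 := by
  rw [m16_eq]
  refine Nat.div_mul_cancel ?_
  have h := Nat.sub_dvd_pow_sub_pow (2 ^ 16) 1 n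
  rw [one_pow, ← pow_mul] at h
  exact h

theorem m16_zero : m16 0 = 0 := rfl

theorem m16_succ (n : ℕ) : m16 (n + 1) = m16 n + 2 ^ (16 * n) := by
  have h1 := m16_mul n
  have h2 := m16_mul (n + 1)
  have h3 : 2 ^ (16 * (n + 1)) = 2 ^ (16 * n) * 65536 := by
    rw [mul_add, pow_add]
    norm_num
  have h4 : 1 ≤ 2 ^ (16 * n) := Nat.one_le_two_pow
  rw [h3] at h2
  omega

theorem m16_lt (n : ℕ) : m16 n < 2 ^ (16 * n) := by
  have h1 := m16_mul n
  have h4 : 1 ≤ 2 ^ (16 * n) := Nat.one_le_two_pow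
  omega

theorem land_m16_succ (y n : ℕ) :
    y &&& m16 (n + 1) = (y &&& m16 n) + (y.testBit (16 * n)).toNat * 2 ^ (16 * n) := by
  have h1 : m16 (n + 1) = 2 ^ (16 * n) ||| m16 n := by
    rw [m16_succ, add_comm]
    have h := Nat.two_pow_add_eq_or_of_lt (m16_lt n) 1
    rwa [mul_one] at h
  rw [h1, Nat.and_or_distrib_left, Nat.and_two_pow]
  have h2 : y &&& m16 n < 2 ^ (16 * n) := lt_of_le_of_lt Nat.and_le_right (m16_lt n)
  cases y.testBit (16 * n)
  · simp
  · simp only [Bool.toNat_true, one_mul]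
    have h := Nat.two_pow_add_eq_or_of_lt h2 1
    rw [mul_one] at h
    rw [← h, add_comm]

theorem two_pow_modEq (n : ℕ) : 2 ^ (16 * n) ≡ 1 [MOD 65535] := by
  rw [pow_mul]
  calc (2 ^ 16) ^ n ≡ 1 ^ n [MOD 65535] := Nat.ModEq.pow _ (by decide)
    _ = 1 := one_pow n

theorem land_m16_modEq (y n : ℕ) :
    y &&& m16 n ≡ ∑ j ∈ range n, (y.testBit (16 * j)).toNat [MOD 65535] := by
  induction n with
  | zero => simp [m16_zero, Nat.ModEq.refl]
  | succ n ih =>
    rw [land_m16_succ, sum_range_succ]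
    refine Nat.ModEq.add ih ?_
    calc (y.testBit (16 * n)).toNat * 2 ^ (16 * n)
        ≡ (y.testBit (16 * n)).toNat * 1 [MOD 65535] := Nat.ModEq.mul_left _ (two_pow_modEq n)
      _ = _ := mul_one _

theorem sum_range_mul16 (f : ℕ → ℕ) (n : ℕ) :
    ∑ i ∈ range (16 * n), f i = ∑ r ∈ range 16, ∑ j ∈ range n, f (r + 16 * j) := by
  rw [Finset.sum_comm]
  induction n with
  | zero => simp
  | succ n ih =>
    have h : ∑ x ∈ range 16, f (16 * n + x) = ∑ x ∈ range 16, f (x + 16 * n) :=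
      Finset.sum_congr rfl fun r _ => by rw [add_comm]
    rw [mul_add, mul_one, Finset.sum_range_add, ih, h, Finset.sum_range_succ _ n]

theorem pcnt_le (n x : ℕ) : pcnt n x ≤ ∑ i ∈ range (16 * n), (x.testBit i).toNat := by
  have hdef : pcnt n x = (∑ r ∈ range 16, ((x >>> r) &&& m16 n)) % 65535 := by
    rw [← sumTo_eq]
    rfl
  have h : (∑ r ∈ range 16, ((x >>> r) &&& m16 n)) ≡
      ∑ i ∈ range (16 * n), (x.testBit i).toNat [MOD 65535] := by
    rw [sum_range_mul16]
    have : ∀ s : Finset ℕ, (∑ r ∈ s, ((x >>> r) &&& m16 n)) ≡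
        ∑ r ∈ s, ∑ j ∈ range n, (x.testBit (r + 16 * j)).toNat [MOD 65535] := by
      intro s
      induction s using Finset.induction_on with
      | empty => simp [Nat.ModEq.refl]
      | insert a s ha ih =>
        rw [sum_insert ha, sum_insert ha]
        refine Nat.ModEq.add ?_ ih
        have h1 := land_m16_modEq (x >>> a) n
        simpa only [Nat.testBit_shiftRight] using h1
    exact this _
  rw [hdef, h]
  exact Nat.mod_le _ _

theorem blk_le (n i G : ℕ) :
    blk n i G ≤ ∑ j ∈ range (16 * n), (G.testBit (16 * n * i + j)).toNat := by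
  have hdef : blk n i G = pcnt n ((G >>> (16 * n * i)) % 2 ^ (16 * n)) := rfl
  rw [hdef]
  refine (pcnt_le _ _).trans (le_of_eq ?_)
  refine sum_congr rfl fun j hj => ?_
  rw [mem_range] at hj
  rw [Nat.testBit_mod_two_pow, Nat.testBit_shiftRight]
  simp [hj]

end Wolf6
end

section
/-!
# MP_a19cb6_nt: correctness of the bit sieve
-/
namespace Wolf6

theorem rep_zero (q : ℕ) : rep q 0 = 1 := rfl

theorem rep_succ (q n : ℕ) : rep q (n + 1) = rep q n ||| (rep q n <<< (q * 2 ^ n)) := rfl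

theorem testBit_rep {q : ℕ} (hq : 0 < q) (n i : ℕ) :
    (rep q n).testBit i = true ↔ q ∣ i ∧ i < q * 2 ^ n := by
  induction n generalizing i with
  | zero =>
    rw [rep_zero]
    rw [Nat.testBit_one_eq_true_iff_self_eq_zero]
    constructor
    · rintro rfl
      exact ⟨dvd_zero q, by simpa using hq⟩
    · rintro ⟨h1, h2⟩
      exact Nat.eq_zero_of_dvd_of_lt h1 (by simpa using h2)
  | succ n ih =>
    rw [rep_succ, Nat.testBit_or, Nat.testBit_shiftLeft, Bool.or_eq_true, Bool.and_eq_true,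
      decide_eq_true_iff, ih, ih, pow_succ, ← mul_assoc]
    constructor
    · rintro (⟨h1, h2⟩ | ⟨h1, h2, h3⟩)
      · exact ⟨h1, by omega⟩
      · refine ⟨?_, by omega⟩
        exact (Nat.dvd_sub_iff_left h1 (Dvd.intro _ rfl : q ∣ q * 2 ^ n)).1 h2
    · rintro ⟨h1, h2⟩
      rcases lt_or_ge i (q * 2 ^ n) with h | h
      · exact Or.inl ⟨h1, h⟩
      · exact Or.inr ⟨h, Nat.dvd_sub h1 (Dvd.intro _ rfl), by omega⟩

theorem testBit_pat {q t : ℕ} (hq : 0 < q) (ht : 0 < t) (i : ℕ) :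
    (pat q t).testBit i = true ↔ q ∣ i ∧ i < q * t := by
  have h1 : 2 ^ Nat.log2 t ≤ t := Nat.log2_self_le ht.ne'
  have h2 : t < 2 ^ (Nat.log2 t + 1) := Nat.lt_log2_self
  rw [pow_succ] at h2
  have hdef : pat q t = rep q (Nat.log2 t) ||| (rep q (Nat.log2 t) <<< (q * (t - 2 ^ Nat.log2 t))) :=
    rfl
  rw [hdef, Nat.testBit_or, Nat.testBit_shiftLeft, Bool.or_eq_true, Bool.and_eq_true,
      decide_eq_true_iff, testBit_rep hq, testBit_rep hq]
  generalize 2 ^ Nat.log2 t = u at *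
  obtain ⟨v, rfl⟩ := Nat.exists_eq_add_of_le h1
  have h3 : v ≤ u := by omega
  have h4 : u + v - u = v := by omega
  have h5 : q * v ≤ q * u := Nat.mul_le_mul_left q h3
  rw [h4, mul_add]
  constructor
  · rintro (⟨h1, h2⟩ | ⟨h1, h2, h3⟩)
    · exact ⟨h1, by omega⟩
    · refine ⟨?_, by omega⟩
      exact (Nat.dvd_sub_iff_left h1 (Dvd.intro _ rfl : q ∣ q * v)).1 h2
  · rintro ⟨h1, h2⟩
    rcases lt_or_ge i (q * v) with h | h
    · exact Or.inl ⟨h1, by omega⟩
    · exact Or.inr ⟨h, Nat.dvd_sub h1 (Dvd.intro _ rfl), by omega⟩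

/-- For `j < L`, the bit `s + j` of `pq L q`, with `s = (b * inv30 q) % q`. -/
theorem testBit_shift_pq {L b q j : ℕ} (hq : 7 ≤ q) (hinv : (30 * inv30 q) % q = 1) (hj : j < L) :
    (Nat.shiftRight (pq L q) (Nat.mod (Nat.mul b (inv30 q)) q)).testBit j = true ↔
      q ∣ b + 30 * j := by
  have hq0 : 0 < q := by omega
  have hmod : (b * inv30 q) % q < q := Nat.mod_lt _ hq0
  have hrw : Nat.shiftRight (pq L q) (Nat.mod (Nat.mul b (inv30 q)) q)
      = pat q ((L + q) / q + 1) >>> ((b * inv30 q) % q) := rfl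
  rw [hrw, Nat.testBit_shiftRight, testBit_pat hq0 (Nat.succ_pos _)]
  have hlt : (b * inv30 q) % q + j < q * ((L + q) / q + 1) := by
    have : L + q < q * ((L + q) / q + 1) := Nat.lt_mul_div_succ _ hq0
    omega
  have hcop : Nat.Coprime q 30 := by
    have h1 : Nat.gcd q 30 ∣ 1 := by
      have h2 : Nat.gcd q 30 ∣ q := Nat.gcd_dvd_left _ _
      have h3 : Nat.gcd q 30 ∣ 30 * inv30 q := (Nat.gcd_dvd_right _ _).mul_right _
      have h4 : Nat.gcd q 30 ∣ (30 * inv30 q) % q := (Nat.dvd_mod_iff h2).2 h3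
      rwa [hinv] at h4
    exact Nat.dvd_one.1 h1
  have key : (q ∣ (b * inv30 q) % q + j) ↔ q ∣ b + 30 * j := by
    rw [← hcop.dvd_mul_left (m := 30) (n := (b * inv30 q) % q + j)]
    rw [← Nat.modEq_zero_iff_dvd, ← Nat.modEq_zero_iff_dvd]
    have h1 : 30 * ((b * inv30 q) % q + j) ≡ b + 30 * j [MOD q] := by
      rw [mul_add]
      refine Nat.ModEq.add_right _ ?_
      calc 30 * ((b * inv30 q) % q) ≡ 30 * (b * inv30 q) [MOD q] :=
            Nat.ModEq.mul_left _ (Nat.mod_modEq _ _)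
        _ = b * (30 * inv30 q) := by ring
        _ ≡ b * 1 [MOD q] := by
            refine Nat.ModEq.mul_left _ ?_
            rw [Nat.ModEq, hinv, Nat.mod_eq_of_lt (by omega)]
        _ = b := mul_one b
    exact ⟨fun h => h1.symm.trans h, fun h => h1.trans h⟩
  rw [key]
  exact ⟨fun h => h.1, fun h => ⟨h, hlt⟩⟩

/-- Conditions on a list of sieving primes. -/
def ListOK (l : List ℕ) : Prop := ∀ q ∈ l, 7 ≤ q ∧ (30 * inv30 q) % q = 1

theorem orL_nil (L b : ℕ) : orL L b [] = 0 := rfl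

theorem orL_cons (L b q : ℕ) (l : List ℕ) :
    orL L b (q :: l) =
      Nat.shiftRight (pq L q) (Nat.mod (Nat.mul b (inv30 q)) q) ||| orL L b l := rfl

theorem testBit_orL {L b j : ℕ} (hj : j < L) (l : List ℕ) (hl : ListOK l) :
    (orL L b l).testBit j = true ↔ ∃ q ∈ l, q ∣ b + 30 * j := by
  induction l with
  | nil => simp [orL_nil]
  | cons q l ih =>
    rw [orL_cons, Nat.testBit_or, Bool.or_eq_true, ih (fun q hq => hl q (List.mem_cons_of_mem _ hq)),
      testBit_shift_pq (hl q (List.mem_cons_self ..)).1 (hl q (List.mem_cons_self ..)).2 hj]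
    simp

theorem orLL_nil (L b : ℕ) : orLL L b [] = 0 := rfl

theorem orLL_cons (L b : ℕ) (l : List ℕ) (Q : List (List ℕ)) :
    orLL L b (l :: Q) = orL L b l ||| orLL L b Q := rfl

theorem testBit_orLL {L b j : ℕ} (hj : j < L) (Q : List (List ℕ)) (hQ : ∀ l ∈ Q, ListOK l) :
    (orLL L b Q).testBit j = true ↔ ∃ l ∈ Q, ∃ q ∈ l, q ∣ b + 30 * j := by
  induction Q with
  | nil => simp [orLL_nil]
  | cons l Q ih =>
    rw [orLL_cons, Nat.testBit_or, Bool.or_eq_true, ih (fun l hl => hQ l (List.mem_cons_of_mem _ hl)),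
      testBit_orL hj l (hQ l (List.mem_cons_self ..))]
    simp

theorem testBit_andNot (x y j : ℕ) :
    (andNot x y).testBit j = (x.testBit j && !y.testBit j) := by
  have : andNot x y = x ^^^ (x &&& y) := rfl
  rw [this, Nat.testBit_xor, Nat.testBit_and]
  cases x.testBit j <;> cases y.testBit j <;> rfl

theorem testBit_lor (x y j : ℕ) : (Nat.lor x y).testBit j = (x.testBit j || y.testBit j) :=
  Nat.testBit_or x y j

/-- The list `Q` contains exactly the primes in `[7, P)` (only what is needed). -/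
structure QOK (Q : List (List ℕ)) (P : ℕ) : Prop where
  ok : ∀ l ∈ Q, ListOK l
  lt : ∀ l ∈ Q, ∀ q ∈ l, q < P
  complete : ∀ r, r.Prime → 7 ≤ r → r < P → ∃ l ∈ Q, r ∈ l

/-- In a segment, an integer coprime to 30 is composite iff it is divisible by one of the
sieving primes. -/
theorem QOK.prime_iff {Q : List (List ℕ)} {P : ℕ} (h : QOK Q P) {n : ℕ} (hPn : P ≤ n)
    (hn : n < P * P) (h30 : Nat.Coprime n 30) (hn1 : 1 < n) :
    (¬ n.Prime) ↔ ∃ l ∈ Q, ∃ q ∈ l, q ∣ n := by
  constructor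
  · intro hnp
    have hr : n.minFac.Prime := Nat.minFac_prime hn1.ne'
    have hr2 : n.minFac ^ 2 ≤ n := Nat.minFac_sq_le_self (by omega) hnp
    have hrd : n.minFac ∣ n := Nat.minFac_dvd n
    have hrP : n.minFac < P := by
      by_contra hcon
      push Not at hcon
      have : P * P ≤ n.minFac ^ 2 := by
        rw [pow_two]; exact Nat.mul_le_mul hcon hcon
      omega
    have hr7 : 7 ≤ n.minFac := by
      by_contra hcon
      push Not at hcon
      have hcop : Nat.Coprime n.minFac 30 := Nat.Coprime.coprime_dvd_left hrd h30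
      generalize n.minFac = r at *
      interval_cases r
      · exact absurd hr (by norm_num)
      · exact absurd hr (by norm_num)
      · exact absurd hcop (by norm_num)
      · exact absurd hcop (by norm_num)
      · exact absurd hr (by norm_num)
      · exact absurd hcop (by norm_num)
      · exact absurd hr (by norm_num)
    obtain ⟨l, hl, hrl⟩ := h.complete _ hr hr7 hrP
    exact ⟨l, hl, _, hrl, hrd⟩
  · rintro ⟨l, hl, q, hq, hqn⟩ hp
    have h7 := (h.ok l hl q hq).1
    have hlt := h.lt l hl q hq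
    rcases (Nat.dvd_prime hp).1 hqn with h1 | h1 <;> omega

end Wolf6
end
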