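import Pool.Agent.Lib.MP_a19cb6_nt.Segment
import Pool.Agent.Lib.MP_a19cb6_nt.Data

section
/-!
# MP_a19cb6_nt: one step of the computation
-/
namespace Wolf6

open Finset

/-- The masks computed from the class maps. -/
structure Classes (a L M1 M7 M11 M13 M17 M19 M23 M29 : ℕ) : Prop where
  c1 : ∀ j < L, (M1.testBit j = true ↔ ¬ (30 * (a + j) + 1).Prime)
  c7 : ∀ j < L, (M7.testBit j = true ↔ ¬ (30 * (a + j) + 7).Prime)
  c11 : ∀ j < L, (M11.testBit j = true ↔ ¬ (30 * (a + j) + 11).Prime)
  c13 : ∀ j < L, (M13.testBit j = true ↔ ¬ (30 * (a + j) + 13).Prime)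
  c17 : ∀ j < L, (M17.testBit j = true ↔ ¬ (30 * (a + j) + 17).Prime)
  c19 : ∀ j < L, (M19.testBit j = true ↔ ¬ (30 * (a + j) + 19).Prime)
  c23 : ∀ j < L, (M23.testBit j = true ↔ ¬ (30 * (a + j) + 23).Prime)
  c29 : ∀ j < L, (M29.testBit j = true ↔ ¬ (30 * (a + j) + 29).Prime)

theorem np2 {m : ℕ} (h : m % 2 = 0) (h1 : 2 < m) : ¬ m.Prime :=
  not_prime_of_dvd (Nat.dvd_of_mod_eq_zero h) (by norm_num) h1

theorem np3 {m : ℕ} (h : m % 3 = 0) (h1 : 3 < m) : ¬ m.Prime :=
  not_prime_of_dvd (Nat.dvd_of_mod_eq_zero h) (by norm_num) h1

theorem np5 {m : ℕ} (h : m % 5 = 0) (h1 : 5 < m) : ¬ m.Prime :=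
  not_prime_of_dvd (Nat.dvd_of_mod_eq_zero h) (by norm_num) h1

theorem gap_of {p : ℕ} (h5 : 5 < p) (hodd : p % 2 = 1) (hp : p.Prime) (hp6 : (p + 6).Prime)
    (h2 : ¬ (p + 2).Prime) (h4 : ¬ (p + 4).Prime) : IsGapPair 6 p := by
  refine ⟨hp, hp6, ?_⟩
  intro m hm1 hm2
  have : m = p + 1 ∨ m = p + 2 ∨ m = p + 3 ∨ m = p + 4 ∨ m = p + 5 := by omega
  rcases this with rfl | rfl | rfl | rfl | rfl
  · exact np2 (by omega) (by omega)
  · exact h2
  · exact np2 (by omega) (by omega)
  · exact h4
  · exact np2 (by omega) (by omega)

theorem masks_of_classes {a L M1 M7 M11 M13 M17 M19 M23 M29 : ℕ} (ha : 0 < a)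
    (h : Classes a L M1 M7 M11 M13 M17 M19 M23 M29) :
    Masks a L (andNot (Nat.sub (Nat.pow 2 L) 1) (Nat.lor M1 M7)) (andNot M11 (Nat.lor M7 M13))
      (andNot M13 (Nat.lor M11 M17)) (andNot M17 (Nat.lor M13 M19))
      (andNot M19 (Nat.lor M17 M23)) (andNot (Nat.sub (Nat.pow 2 L) 1) (Nat.lor M23 M29)) where
  h1 := by
    intro j hj hb
    rw [testBit_andNot, testBit_lor, Bool.and_eq_true, Bool.not_eq_true', Bool.or_eq_false_iff] at hb
    obtain ⟨_, hb1, hb7⟩ := hb
    have p1 : (30 * (a + j) + 1).Prime := by
      by_contra hcon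
      rw [← h.c1 j hj, hb1] at hcon
      exact absurd hcon (by decide)
    have p7 : (30 * (a + j) + 1 + 6).Prime := by
      by_contra hcon
      rw [show 30 * (a + j) + 1 + 6 = 30 * (a + j) + 7 by omega, ← h.c7 j hj, hb7] at hcon
      exact absurd hcon (by decide)
    exact gap_of (by omega) (by omega) p1 p7 (np3 (by omega) (by omega)) (np5 (by omega) (by omega))
  h7 := by
    intro j hj hb
    rw [testBit_andNot, testBit_lor, Bool.and_eq_true, Bool.not_eq_true', Bool.or_eq_false_iff] at hb
    obtain ⟨hm, hb1, hb7⟩ := hb
    have p1 : (30 * (a + j) + 7).Prime := by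
      by_contra hcon
      rw [← h.c7 j hj, hb1] at hcon
      exact absurd hcon (by decide)
    have p7 : (30 * (a + j) + 7 + 6).Prime := by
      by_contra hcon
      rw [show 30 * (a + j) + 7 + 6 = 30 * (a + j) + 13 by omega, ← h.c13 j hj, hb7] at hcon
      exact absurd hcon (by decide)
    have hmid : ¬ (30 * (a + j) + 7 + 4).Prime := by
      rw [show 30 * (a + j) + 7 + 4 = 30 * (a + j) + 11 by omega]
      exact (h.c11 j hj).1 hm
    exact gap_of (by omega) (by omega) p1 p7 (np3 (by omega) (by omega)) hmid
  h11 := by
    intro j hj hb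
    rw [testBit_andNot, testBit_lor, Bool.and_eq_true, Bool.not_eq_true', Bool.or_eq_false_iff] at hb
    obtain ⟨hm, hb1, hb7⟩ := hb
    have p1 : (30 * (a + j) + 11).Prime := by
      by_contra hcon
      rw [← h.c11 j hj, hb1] at hcon
      exact absurd hcon (by decide)
    have p7 : (30 * (a + j) + 11 + 6).Prime := by
      by_contra hcon
      rw [show 30 * (a + j) + 11 + 6 = 30 * (a + j) + 17 by omega, ← h.c17 j hj, hb7] at hcon
      exact absurd hcon (by decide)
    have hmid : ¬ (30 * (a + j) + 11 + 2).Prime := by
      rw [show 30 * (a + j) + 11 + 2 = 30 * (a + j) + 13 by omega]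
      exact (h.c13 j hj).1 hm
    exact gap_of (by omega) (by omega) p1 p7 hmid (np3 (by omega) (by omega))
  h13 := by
    intro j hj hb
    rw [testBit_andNot, testBit_lor, Bool.and_eq_true, Bool.not_eq_true', Bool.or_eq_false_iff] at hb
    obtain ⟨hm, hb1, hb7⟩ := hb
    have p1 : (30 * (a + j) + 13).Prime := by
      by_contra hcon
      rw [← h.c13 j hj, hb1] at hcon
      exact absurd hcon (by decide)
    have p7 : (30 * (a + j) + 13 + 6).Prime := by
      by_contra hcon
      rw [show 30 * (a + j) + 13 + 6 = 30 * (a + j) + 19 by omega, ← h.c19 j hj, hb7] at hcon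
      exact absurd hcon (by decide)
    have hmid : ¬ (30 * (a + j) + 13 + 4).Prime := by
      rw [show 30 * (a + j) + 13 + 4 = 30 * (a + j) + 17 by omega]
      exact (h.c17 j hj).1 hm
    exact gap_of (by omega) (by omega) p1 p7 (np3 (by omega) (by omega)) hmid
  h17 := by
    intro j hj hb
    rw [testBit_andNot, testBit_lor, Bool.and_eq_true, Bool.not_eq_true', Bool.or_eq_false_iff] at hb
    obtain ⟨hm, hb1, hb7⟩ := hb
    have p1 : (30 * (a + j) + 17).Prime := by
      by_contra hcon
      rw [← h.c17 j hj, hb1] at hcon
      exact absurd hcon (by decide)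
    have p7 : (30 * (a + j) + 17 + 6).Prime := by
      by_contra hcon
      rw [show 30 * (a + j) + 17 + 6 = 30 * (a + j) + 23 by omega, ← h.c23 j hj, hb7] at hcon
      exact absurd hcon (by decide)
    have hmid : ¬ (30 * (a + j) + 17 + 2).Prime := by
      rw [show 30 * (a + j) + 17 + 2 = 30 * (a + j) + 19 by omega]
      exact (h.c19 j hj).1 hm
    exact gap_of (by omega) (by omega) p1 p7 hmid (np3 (by omega) (by omega))
  h23 := by
    intro j hj hb
    rw [testBit_andNot, testBit_lor, Bool.and_eq_true, Bool.not_eq_true', Bool.or_eq_false_iff] at hb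
    obtain ⟨_, hb1, hb7⟩ := hb
    have p1 : (30 * (a + j) + 23).Prime := by
      by_contra hcon
      rw [← h.c23 j hj, hb1] at hcon
      exact absurd hcon (by decide)
    have p7 : (30 * (a + j) + 23 + 6).Prime := by
      by_contra hcon
      rw [show 30 * (a + j) + 23 + 6 = 30 * (a + j) + 29 by omega, ← h.c29 j hj, hb7] at hcon
      exact absurd hcon (by decide)
    exact gap_of (by omega) (by omega) p1 p7 (np5 (by omega) (by omega)) (np3 (by omega) (by omega))

theorem classes_orLL {Q : List (List ℕ)} {P a L : ℕ} (hQ : QOK Q P) (hP : P ≤ 30 * a)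
    (hP2 : 30 * (a + L) ≤ P * P) (ha : 0 < a) :
    Classes a L (orLL L (Nat.add (Nat.mul 30 a) 1) Q) (orLL L (Nat.add (Nat.mul 30 a) 7) Q)
      (orLL L (Nat.add (Nat.mul 30 a) 11) Q) (orLL L (Nat.add (Nat.mul 30 a) 13) Q)
      (orLL L (Nat.add (Nat.mul 30 a) 17) Q) (orLL L (Nat.add (Nat.mul 30 a) 19) Q)
      (orLL L (Nat.add (Nat.mul 30 a) 23) Q) (orLL L (Nat.add (Nat.mul 30 a) 29) Q) where
  c1 := fun _ hj => testBit_class hQ hP hP2 ha (by norm_num) (by norm_num) hj
  c7 := fun _ hj => testBit_class hQ hP hP2 ha (by norm_num) (by norm_num) hj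
  c11 := fun _ hj => testBit_class hQ hP hP2 ha (by norm_num) (by norm_num) hj
  c13 := fun _ hj => testBit_class hQ hP hP2 ha (by norm_num) (by norm_num) hj
  c17 := fun _ hj => testBit_class hQ hP hP2 ha (by norm_num) (by norm_num) hj
  c19 := fun _ hj => testBit_class hQ hP hP2 ha (by norm_num) (by norm_num) hj
  c23 := fun _ hj => testBit_class hQ hP hP2 ha (by norm_num) (by norm_num) hj
  c29 := fun _ hj => testBit_class hQ hP hP2 ha (by norm_num) (by norm_num) hj

/-- One block-wise segment. -/
theorem LB.step {Q : List (List ℕ)} {P a n m V v a' V' : ℕ} (hQ : QOK Q P) (h : LB a V)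
    (hv : Nat.ble v (segVal Q a n m) = true) (hP : P ≤ 30 * a)
    (hP2 : 30 * (a + 16 * n * m) ≤ P * P) (ha : 0 < a) (hn : 0 < n)
    (ha' : a + 16 * n * m = a') (hV' : V + v = V') : LB a' V' := by
  subst ha' hV'
  refine lb_of_six h ?_
  have hmasks := masks_of_classes ha (classes_orLL hQ hP hP2 ha)
  have h1 := segSum_le hn hmasks
  have h2 : v ≤ segVal Q a n m := Nat.le_of_ble_eq_true hv
  have h3 : (v : ℝ) / 10 ^ 15 ≤ ((segVal Q a n m : ℕ) : ℝ) / 10 ^ 15 := by
    have : (v : ℝ) ≤ ((segVal Q a n m : ℕ) : ℝ) := by exact_mod_cast h2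
    exact div_le_div_of_nonneg_right this (by positivity)
  exact h3.trans h1

/-! ### The low range, bit by bit -/

theorem bitVal_le {x j p q : ℕ} (hx : x.testBit j = true → IsGapPair 6 p) (hq : q = p) :
    ((bitVal x j q : ℕ) : ℝ) / 10 ^ 15 ≤ gterm p := by
  subst hq
  have hdef : bitVal x j q = (1 &&& (x >>> j)) * (10 ^ 15 / q + 10 ^ 15 / (q + 6)) := rfl
  have hbit : 1 &&& (x >>> j) = (x.testBit j).toNat := by
    rw [Nat.and_comm, Nat.and_one_is_mod, Nat.shiftRight_eq_div_pow, Nat.toNat_testBit]
  rw [hdef, hbit]
  cases hb : x.testBit j with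
  | false =>
    simp only [Bool.toNat_false, zero_mul, Nat.cast_zero, zero_div]
    exact gterm_nonneg q
  | true =>
    have hg := hx hb
    rw [gterm_of_gap hg]
    simp only [Bool.toNat_true, one_mul]
    have hp0 : 0 < q := hg.1.pos
    have h1 : ((10 ^ 15 / q : ℕ) : ℝ) / 10 ^ 15 ≤ 1 / (q : ℝ) := by
      have hq0 : (0 : ℝ) < q := by exact_mod_cast hp0
      rw [div_le_div_iff₀ (by positivity) hq0]
      have : ((10 ^ 15 / q * q : ℕ) : ℝ) ≤ ((10 ^ 15 : ℕ) : ℝ) := by
        exact_mod_cast Nat.div_mul_le_self _ _
      push_cast at this ⊢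
      linarith
    have h2 : ((10 ^ 15 / (q + 6) : ℕ) : ℝ) / 10 ^ 15 ≤ 1 / ((q + 6 : ℕ) : ℝ) := by
      have hq0 : (0 : ℝ) < ((q + 6 : ℕ) : ℝ) := by positivity
      rw [div_le_div_iff₀ (by positivity) hq0]
      have : ((10 ^ 15 / (q + 6) * (q + 6) : ℕ) : ℝ) ≤ ((10 ^ 15 : ℕ) : ℝ) := by
        exact_mod_cast Nat.div_mul_le_self _ _
      push_cast at this ⊢
      linarith
    push_cast at h1 h2 ⊢
    rw [add_div]
    linarith

theorem lowK_le {a L j G1 G7 G11 G13 G17 G23 : ℕ} (h : Masks a L G1 G7 G11 G13 G17 G23)
    (hj : j < L) : ((lowK a j G1 G7 G11 G13 G17 G23 : ℕ) : ℝ) / 10 ^ 15 ≤ six (a + j) := by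
  have hdef : lowK a j G1 G7 G11 G13 G17 G23 =
      bitVal G1 j (30 * (a + j) + 1) + (bitVal G7 j (30 * (a + j) + 7) +
      (bitVal G11 j (30 * (a + j) + 11) + (bitVal G13 j (30 * (a + j) + 13) +
      (bitVal G17 j (30 * (a + j) + 17) + bitVal G23 j (30 * (a + j) + 23))))) := rfl
  rw [hdef]
  push_cast
  rw [add_div, add_div, add_div, add_div, add_div]
  unfold six
  have e1 := bitVal_le (h.h1 j hj) rfl
  have e7 := bitVal_le (h.h7 j hj) rfl
  have e11 := bitVal_le (h.h11 j hj) rfl
  have e13 := bitVal_le (h.h13 j hj) rfl
  have e17 := bitVal_le (h.h17 j hj) rfl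
  have e23 := bitVal_le (h.h23 j hj) rfl
  linarith

theorem lowSum_le {a m1 m2 G1 G7 G11 G13 G17 G23 : ℕ}
    (h : Masks a (m1 * m2) G1 G7 G11 G13 G17 G23) :
    ((lowSum a m1 m2 G1 G7 G11 G13 G17 G23 : ℕ) : ℝ) / 10 ^ 15 ≤
      ∑ k ∈ range (m1 * m2), six (a + k) := by
  have hdef : lowSum a m1 m2 G1 G7 G11 G13 G17 G23 =
      ∑ i ∈ range m1, ∑ j ∈ range m2, lowK a (m2 * i + j) G1 G7 G11 G13 G17 G23 := by
    have : lowSum a m1 m2 G1 G7 G11 G13 G17 G23 =
      sumTo (fun i => sumTo (fun j => lowK a (m2 * i + j) G1 G7 G11 G13 G17 G23) m2) m1 := rfl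
    rw [this, sumTo_eq]
    exact Finset.sum_congr rfl fun i _ => sumTo_eq _ _
  rw [hdef, mul_comm m1 m2, sum_range_mul' (fun k => six (a + k)) m2 m1]
  push_cast
  rw [Finset.sum_div]
  refine Finset.sum_le_sum fun i hi => ?_
  rw [Finset.sum_div]
  refine Finset.sum_le_sum fun j hj => ?_
  refine lowK_le h ?_
  rw [mem_range] at hi hj
  have h1 := Nat.mul_le_mul_left m2 (Nat.succ_le_of_lt hi)
  rw [Nat.mul_succ] at h1
  have h2 : m2 * m1 = m1 * m2 := mul_comm _ _
  omega

/-- One bit-wise segment. -/
theorem LB.stepLow {Q : List (List ℕ)} {P a m1 m2 V v a' V' : ℕ} (hQ : QOK Q P) (h : LB a V)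
    (hv : Nat.ble v (lowVal Q a m1 m2) = true) (hP : P ≤ 30 * a)
    (hP2 : 30 * (a + m1 * m2) ≤ P * P) (ha : 0 < a)
    (ha' : a + m1 * m2 = a') (hV' : V + v = V') : LB a' V' := by
  subst ha' hV'
  refine lb_of_six h ?_
  have hmasks := masks_of_classes ha (classes_orLL hQ hP hP2 ha)
  have h1 := lowSum_le hmasks
  have h2 : v ≤ lowVal Q a m1 m2 := Nat.le_of_ble_eq_true hv
  have h3 : (v : ℝ) / 10 ^ 15 ≤ ((lowVal Q a m1 m2 : ℕ) : ℝ) / 10 ^ 15 := by
    have : (v : ℝ) ≤ ((lowVal Q a m1 m2 : ℕ) : ℝ) := by exact_mod_cast h2
    exact div_le_div_of_nonneg_right this (by positivity)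
  exact h3.trans h1

/-- The start: the pair `(23, 29)`. -/
theorem LB.start : LB 1 (10 ^ 15 / 23 + 10 ^ 15 / 29) := by
  have hg : IsGapPair 6 23 := by
    refine ⟨by norm_num, by norm_num, ?_⟩
    intro m h1 h2
    interval_cases m <;> norm_num
  have h1 : gterm 23 ≤ ∑ p ∈ range (30 * 1), gterm p :=
    Finset.single_le_sum (f := gterm) (fun i _ => gterm_nonneg i) (by decide)
  refine le_trans ?_ h1
  rw [gterm_of_gap hg]
  norm_num

/-! ### The lists of primes -/

theorem walk_sound (N : ℕ) (f n : ℕ) (l : List ℕ) (h : walk N f n l = true) :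
    ∀ r, n ≤ r → r < n + f → r ∈ l ∨ 2 ≤ Nat.gcd r N := by
  induction f generalizing n l with
  | zero => intro r h1 h2; omega
  | succ f ih =>
    cases l with
    | nil =>
      have hdef : walk N (f + 1) n [] =
        (and (Nat.ble 2 (Nat.gcd n N)) (walk N f (n + 1) [])) := rfl
      rw [hdef, Bool.and_eq_true] at h
      intro r h1 h2
      rcases Nat.eq_or_lt_of_le h1 with h3 | h3
      · subst h3
        exact Or.inr (Nat.le_of_ble_eq_true h.1)
      · exact ih _ _ h.2 r h3 (by omega)
    | cons q t =>
      have hdef : walk N (f + 1) n (q :: t) =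
        cond (Nat.beq n q) (walk N f (n + 1) t)
          (and (Nat.ble 2 (Nat.gcd n N)) (walk N f (n + 1) (q :: t))) := rfl
      rw [hdef] at h
      intro r h1 h2
      cases hb : Nat.beq n q with
      | true =>
        rw [hb, cond_true] at h
        have hnq : n = q := Nat.eq_of_beq_eq_true hb
        rcases Nat.eq_or_lt_of_le h1 with h3 | h3
        · left
          rw [← h3, hnq]
          exact List.mem_cons_self ..
        · rcases ih _ _ h r h3 (by omega) with h4 | h4
          · exact Or.inl (List.mem_cons_of_mem _ h4)
          · exact Or.inr h4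
      | false =>
        rw [hb, cond_false, Bool.and_eq_true] at h
        rcases Nat.eq_or_lt_of_le h1 with h3 | h3
        · subst h3
          exact Or.inr (Nat.le_of_ble_eq_true h.1)
        · exact ih _ _ h.2 r h3 (by omega)

theorem okL_sound (P : ℕ) (l : List ℕ) (h : okL P l = true) :
    ListOK l ∧ ∀ q ∈ l, q < P := by
  induction l with
  | nil =>
    refine ⟨?_, ?_⟩
    · intro q hq; exact absurd hq List.not_mem_nil
    · intro q hq; exact absurd hq List.not_mem_nil
  | cons q l ih =>
    have hdef : okL P (q :: l) = (and (and (Nat.ble 7 q) (Nat.blt q P))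
      (and (Nat.beq (Nat.mod (Nat.mul 30 (inv30 q)) q) 1) (okL P l))) := rfl
    rw [hdef] at h
    simp only [Bool.and_eq_true] at h
    obtain ⟨⟨h1, h2⟩, h3, h4⟩ := h
    obtain ⟨i1, i2⟩ := ih h4
    refine ⟨?_, ?_⟩
    · intro r hr
      rcases List.mem_cons.1 hr with rfl | hr
      · exact ⟨Nat.le_of_ble_eq_true h1, Nat.eq_of_beq_eq_true h3⟩
      · exact i1 r hr
    · intro r hr
      rcases List.mem_cons.1 hr with rfl | hr
      · exact Nat.le_of_ble_eq_true h2
      · exact i2 r hr

theorem gcd_primorial {r : ℕ} (hr : r.Prime) (h : 131 < r) : Nat.gcd r primorial131 = 1 := by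
  have key : ∀ p : ℕ, p.Prime → p ≤ 131 → Nat.Coprime r p := by
    intro p hp hle
    rw [Nat.coprime_primes hr hp]
    omega
  unfold primorial131
  have : Nat.Coprime r primorial131 := by
    unfold primorial131
    repeat' apply Nat.Coprime.mul_right
    all_goals exact key _ (by norm_num) (by norm_num)
  exact this

theorem QOK.cons {Q : List (List ℕ)} {P P' f : ℕ} {l : List ℕ} (h : QOK Q P)
    (h1 : okL P' l = true) (h2 : walk primorial131 f P l = true) (h3 : P + f = P')
    (h4 : 131 < P) : QOK (l :: Q) P' := by
  subst h3
  obtain ⟨o1, o2⟩ := okL_sound _ _ h1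
  refine ⟨?_, ?_, ?_⟩
  · intro l' hl'
    rcases List.mem_cons.1 hl' with rfl | hl'
    · exact o1
    · exact h.ok l' hl'
  · intro l' hl' q hq
    rcases List.mem_cons.1 hl' with rfl | hl'
    · exact o2 q hq
    · have := h.lt l' hl' q hq
      omega
  · intro r hr hr7 hrP
    rcases lt_or_ge r P with hlt | hge
    · obtain ⟨l', hl', hm⟩ := h.complete r hr hr7 hlt
      exact ⟨l', List.mem_cons_of_mem _ hl', hm⟩
    · rcases walk_sound _ _ _ _ h2 r hge hrP with h5 | h5
      · exact ⟨l, List.mem_cons_self .., h5⟩
      · rw [gcd_primorial hr (by omega)] at h5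
        omega

end Wolf6
end

section
/-!
# MP_a19cb6_nt: the lists of primes are complete
-/
namespace Wolf6

theorem qok7 : QOK [[7]] 11 := by
  refine ⟨?_, ?_, ?_⟩
  · intro l hl
    rw [List.mem_singleton] at hl
    subst hl
    exact (okL_sound 11 [7] (by decide +kernel)).1
  · intro l hl
    rw [List.mem_singleton] at hl
    subst hl
    exact (okL_sound 11 [7] (by decide +kernel)).2
  · intro r hr h7 h11
    refine ⟨[7], List.mem_singleton.2 rfl, ?_⟩
    interval_cases r
    · exact List.mem_singleton.2 rfl
    · exact absurd hr (by norm_num)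
    · exact absurd hr (by norm_num)
    · exact absurd hr (by norm_num)

theorem qokSmall : QOK [qSmall] 29 := by
  refine ⟨?_, ?_, ?_⟩
  · intro l hl
    rw [List.mem_singleton] at hl
    subst hl
    exact (okL_sound 29 qSmall (by decide +kernel)).1
  · intro l hl
    rw [List.mem_singleton] at hl
    subst hl
    exact (okL_sound 29 qSmall (by decide +kernel)).2
  · intro r hr h7 h29
    refine ⟨qSmall, List.mem_singleton.2 rfl, ?_⟩
    have key : ∀ r < 29, 7 ≤ r → r.Prime → r ∈ qSmall := by decide +kernel
    exact key r h29 h7 hr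

theorem qok01 : QOK Q01 337 := by
  refine ⟨?_, ?_, ?_⟩
  · intro l hl
    have hl' : l = q01 := List.mem_singleton.1 hl
    subst hl'
    exact (okL_sound 337 q01 (by decide +kernel)).1
  · intro l hl
    have hl' : l = q01 := List.mem_singleton.1 hl
    subst hl'
    exact (okL_sound 337 q01 (by decide +kernel)).2
  · intro r hr h7 h337
    refine ⟨q01, List.mem_singleton.2 rfl, ?_⟩
    have key : ∀ r < 337, 7 ≤ r → r.Prime → r ∈ q01 := by decide +kernel
    exact key r h337 h7 hr

theorem qok02 : QOK Q02 743 :=
  qok01.cons (f := 406) (by decide +kernel) (by decide +kernel) rfl (by norm_num)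

theorem qok03 : QOK Q03 1193 :=
  qok02.cons (f := 450) (by decide +kernel) (by decide +kernel) rfl (by norm_num)

theorem qok04 : QOK Q04 1657 :=
  qok03.cons (f := 464) (by decide +kernel) (by decide +kernel) rfl (by norm_num)

theorem qok05 : QOK Q05 2143 :=
  qok04.cons (f := 486) (by decide +kernel) (by decide +kernel) rfl (by norm_num)

theorem qok06 : QOK Q06 2677 :=
  qok05.cons (f := 534) (by decide +kernel) (by decide +kernel) rfl (by norm_num)

theorem qok07 : QOK Q07 3191 :=
  qok06.cons (f := 514) (by decide +kernel) (by decide +kernel) rfl (by norm_num)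

theorem qok08 : QOK Q08 3697 :=
  qok07.cons (f := 506) (by decide +kernel) (by decide +kernel) rfl (by norm_num)

theorem qok09 : QOK Q09 4231 :=
  qok08.cons (f := 534) (by decide +kernel) (by decide +kernel) rfl (by norm_num)

theorem qok10 : QOK Q10 4789 :=
  qok09.cons (f := 558) (by decide +kernel) (by decide +kernel) rfl (by norm_num)

theorem qok11 : QOK Q11 5351 :=
  qok10.cons (f := 562) (by decide +kernel) (by decide +kernel) rfl (by norm_num)

theorem qok12 : QOK Q12 5867 :=
  qok11.cons (f := 516) (by decide +kernel) (by decide +kernel) rfl (by norm_num)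

theorem qok13 : QOK Q13 6427 :=
  qok12.cons (f := 560) (by decide +kernel) (by decide +kernel) rfl (by norm_num)

theorem qok14 : QOK Q14 6997 :=
  qok13.cons (f := 570) (by decide +kernel) (by decide +kernel) rfl (by norm_num)

theorem qok15 : QOK Q15 7589 :=
  qok14.cons (f := 592) (by decide +kernel) (by decide +kernel) rfl (by norm_num)

theorem qok16 : QOK Q16 8191 :=
  qok15.cons (f := 602) (by decide +kernel) (by decide +kernel) rfl (by norm_num)

theorem qok17 : QOK Q17 8753 :=
  qok16.cons (f := 562) (by decide +kernel) (by decide +kernel) rfl (by norm_num)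

theorem qok18 : QOK Q18 9341 :=
  qok17.cons (f := 588) (by decide +kernel) (by decide +kernel) rfl (by norm_num)

theorem qok19 : QOK Q19 9887 :=
  qok18.cons (f := 546) (by decide +kernel) (by decide +kernel) rfl (by norm_num)

theorem qok20 : QOK Q20 10499 :=
  qok19.cons (f := 612) (by decide +kernel) (by decide +kernel) rfl (by norm_num)

theorem qok21 : QOK Q21 11119 :=
  qok20.cons (f := 620) (by decide +kernel) (by decide +kernel) rfl (by norm_num)

theorem qok22 : QOK Q22 11783 :=
  qok21.cons (f := 664) (by decide +kernel) (by decide +kernel) rfl (by norm_num)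

theorem qok23 : QOK Q23 12373 :=
  qok22.cons (f := 590) (by decide +kernel) (by decide +kernel) rfl (by norm_num)

theorem qok24 : QOK Q24 12923 :=
  qok23.cons (f := 550) (by decide +kernel) (by decide +kernel) rfl (by norm_num)

theorem qok25 : QOK Q25 13553 :=
  qok24.cons (f := 630) (by decide +kernel) (by decide +kernel) rfl (by norm_num)

theorem qok26 : QOK Q26 14173 :=
  qok25.cons (f := 620) (by decide +kernel) (by decide +kernel) rfl (by norm_num)

theorem qok27 : QOK Q27 14779 :=
  qok26.cons (f := 606) (by decide +kernel) (by decide +kernel) rfl (by norm_num)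

theorem qok28 : QOK Q28 15373 :=
  qok27.cons (f := 594) (by decide +kernel) (by decide +kernel) rfl (by norm_num)

theorem qok29 : QOK Q29 15971 :=
  qok28.cons (f := 598) (by decide +kernel) (by decide +kernel) rfl (by norm_num)

theorem qok30 : QOK Q30 16633 :=
  qok29.cons (f := 662) (by decide +kernel) (by decide +kernel) rfl (by norm_num)

theorem qok31 : QOK Q31 17293 :=
  qok30.cons (f := 660) (by decide +kernel) (by decide +kernel) rfl (by norm_num)

theorem qok32 : QOK Q32 17909 :=
  qok31.cons (f := 616) (by decide +kernel) (by decide +kernel) rfl (by norm_num)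

end Wolf6
end

section
/-!
# MP_a19cb6_nt: an upper bound for the twin prime constant
-/
namespace Wolf6

open Finset Filter

/-- The factor of the twin prime constant at `p`. -/
noncomputable def tf (p : ℕ) : ℝ := 1 - 1 / ((p : ℝ) - 1) ^ 2

theorem tf_nonneg {p : ℕ} (hp : 2 < p) : 0 ≤ tf p := by
  unfold tf
  have h : (2 : ℝ) < p := by exact_mod_cast hp
  have h1 : (1 : ℝ) ≤ ((p : ℝ) - 1) ^ 2 := by nlinarith
  have h2 : 1 / ((p : ℝ) - 1) ^ 2 ≤ 1 := by
    rw [div_le_one (by linarith)]
    exact h1
  linarith

theorem tf_le_one (p : ℕ) : tf p ≤ 1 := by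
  unfold tf
  have : 0 ≤ 1 / ((p : ℝ) - 1) ^ 2 := by positivity
  linarith

theorem summable_tf :
    Summable (fun p : {p : ℕ // p.Prime ∧ 2 < p} => -(1 / (((p : ℕ) : ℝ) - 1) ^ 2)) := by
  refine Summable.neg ?_
  have h1 : Summable (fun n : ℕ => 4 * (1 / (n : ℝ) ^ 2)) :=
    (Real.summable_one_div_nat_pow.2 (by norm_num)).mul_left 4
  have h2 : Summable (fun p : {p : ℕ // p.Prime ∧ 2 < p} => 4 * (1 / (((p : ℕ) : ℝ)) ^ 2)) :=
    h1.comp_injective Subtype.val_injective
  refine Summable.of_nonneg_of_le (fun p => by positivity) (fun p => ?_) h2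
  have h : (2 : ℝ) < ((p : ℕ) : ℝ) := by exact_mod_cast p.2.2
  rw [mul_one_div, div_le_div_iff₀ (by nlinarith) (by nlinarith)]
  nlinarith

theorem multipliable_tf :
    Multipliable (fun p : {p : ℕ // p.Prime ∧ 2 < p} => tf p) := by
  have h := Real.multipliable_one_add_of_summable summable_tf
  refine h.congr ?_
  intro p
  unfold tf
  ring

theorem tprod_tf_le (s : Finset {p : ℕ // p.Prime ∧ 2 < p}) :
    ∏' p : {p : ℕ // p.Prime ∧ 2 < p}, tf p ≤ ∏ p ∈ s, tf p := by
  have h := multipliable_tf.hasProd
  refine le_of_tendsto h ?_
  filter_upwards [eventually_ge_atTop s] with t ht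
  have hst : s ⊆ t := ht
  rw [← Finset.prod_sdiff hst]
  have h1 : ∏ p ∈ t \ s, tf p ≤ 1 :=
    Finset.prod_le_one (fun p _ => tf_nonneg p.2.2) (fun p _ => tf_le_one _)
  have h2 : 0 ≤ ∏ p ∈ s, tf p := Finset.prod_nonneg (fun p _ => tf_nonneg p.2.2)
  exact mul_le_of_le_one_left h2 h1

theorem tprod_tf_le_list (l : List ℕ) (hl : ∀ p ∈ l, p.Prime ∧ 2 < p) (hn : l.Nodup) :
    ∏' p : {p : ℕ // p.Prime ∧ 2 < p}, tf p ≤ (l.map tf).prod := by
  classical
  rw [← List.prod_toFinset tf hn]
  refine (tprod_tf_le (l.toFinset.subtype (fun p => p.Prime ∧ 2 < p))).trans (le_of_eq ?_)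
  exact Finset.prod_subtype_of_mem tf (fun p hp => hl p (List.mem_toFinset.1 hp))

/-- Product of `p (p - 2)`. -/
def numP (l : List ℕ) : ℕ := List.rec 1 (fun p _ r => Nat.mul (Nat.mul p (Nat.sub p 2)) r) l

/-- Product of `(p - 1)^2`. -/
def denP (l : List ℕ) : ℕ :=
  List.rec 1 (fun p _ r => Nat.mul (Nat.mul (Nat.sub p 1) (Nat.sub p 1)) r) l

theorem denP_pos (l : List ℕ) (hl : ∀ p ∈ l, 2 < p) : 0 < denP l := by
  induction l with
  | nil => exact Nat.one_pos
  | cons p l ih =>
    have hdef : denP (p :: l) = ((p - 1) * (p - 1)) * denP l := rfl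
    rw [hdef]
    have h1 := ih (fun q hq => hl q (List.mem_cons_of_mem _ hq))
    have h2 := hl p (List.mem_cons_self ..)
    have h3 : 0 < p - 1 := by omega
    positivity

theorem prod_tf_eq (l : List ℕ) (hl : ∀ p ∈ l, 2 < p) :
    (l.map tf).prod * (denP l : ℝ) = (numP l : ℝ) := by
  induction l with
  | nil =>
    have h1 : denP [] = 1 := rfl
    have h2 : numP [] = 1 := rfl
    simp [h1, h2]
  | cons p l ih =>
    have hdef : denP (p :: l) = ((p - 1) * (p - 1)) * denP l := rfl
    have hdef' : numP (p :: l) = (p * (p - 2)) * numP l := rfl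
    have h1 := ih (fun q hq => hl q (List.mem_cons_of_mem _ hq))
    have h2 := hl p (List.mem_cons_self ..)
    rw [hdef, hdef', List.map_cons, List.prod_cons]
    push_cast [Nat.cast_sub (show 1 ≤ p by omega), Nat.cast_sub (show 2 ≤ p by omega)]
    rw [← h1]
    have h3 : (2 : ℝ) < p := by exact_mod_cast h2
    have h4 : (p : ℝ) - 1 ≠ 0 := by
      intro h; linarith
    have h5 : tf p * (((p : ℝ) - 1) * ((p : ℝ) - 1)) = p * (p - 2) := by
      unfold tf
      field_simp
      ring
    calc tf p * (l.map tf).prod * (((p : ℝ) - 1) * ((p : ℝ) - 1) * (denP l : ℝ))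
        = (tf p * (((p : ℝ) - 1) * ((p : ℝ) - 1))) * ((l.map tf).prod * (denP l : ℝ)) := by ring
      _ = _ := by rw [h5]

/-- The odd primes up to 743. -/
def smallPrimes : List ℕ := 3 :: 5 :: (q01 ++ q02)

theorem prime_of_gcd {q : ℕ} (h1 : 1 < q) (h2 : q < 841) (h : Nat.gcd q 223092870 = 1) :
    q.Prime := by
  by_contra hnp
  have hr : q.minFac.Prime := Nat.minFac_prime h1.ne'
  have hr2 : q.minFac ^ 2 ≤ q := Nat.minFac_sq_le_self (by omega) hnp
  have hrd : q.minFac ∣ q := Nat.minFac_dvd q
  have hlt : q.minFac < 29 := by
    by_contra hcon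
    push Not at hcon
    nlinarith
  have hdvd : q.minFac ∣ 223092870 := by
    generalize q.minFac = r at *
    interval_cases r <;> first
      | decide
      | (exfalso; revert hr; norm_num; done)
  have h3 : q.minFac ∣ 1 := by
    rw [← h]
    exact Nat.dvd_gcd hrd hdvd
  exact hr.one_lt.ne' (Nat.dvd_one.1 h3)

theorem smallPrimes_gcd : ∀ p ∈ smallPrimes, 2 < p ∧ (p < 29 ∨ (p < 841 ∧
    Nat.gcd p 223092870 = 1)) := by
  decide +kernel

theorem smallPrimes_small : ∀ p ∈ smallPrimes, p < 29 → p.Prime := by
  decide +kernel

theorem smallPrimes_chain : smallPrimes.IsChain (· < ·) := by decide +kernel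

theorem smallPrimes_ok : (∀ p ∈ smallPrimes, p.Prime ∧ 2 < p) ∧ smallPrimes.Nodup := by
  refine ⟨?_, ?_⟩
  · intro p hp
    obtain ⟨h1, h2 | ⟨h2, h3⟩⟩ := smallPrimes_gcd p hp
    · exact ⟨smallPrimes_small p hp h2, h1⟩
    · exact ⟨prime_of_gcd (by omega) h2 h3, h1⟩
  · exact (List.isChain_iff_pairwise.1 smallPrimes_chain).imp (fun h => h.ne)

theorem numeric : Nat.ble (Nat.mul (Nat.mul 4 1000000000000000) (numP smallPrimes))
    (Nat.mul (Nat.mul 3 880484815731945) (denP smallPrimes)) = true := by decide +kernel

theorem twin_le : 4 / 3 * ∏' p : {p : ℕ // p.Prime ∧ 2 < p}, tf p ≤ 880484815731945 / 10 ^ 15 := by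
  have h1 := tprod_tf_le_list smallPrimes smallPrimes_ok.1 smallPrimes_ok.2
  have h2 := prod_tf_eq smallPrimes (fun p hp => (smallPrimes_ok.1 p hp).2)
  have h3 : 0 < denP smallPrimes := denP_pos _ (fun p hp => (smallPrimes_ok.1 p hp).2)
  have h4 : (4 * 1000000000000000) * numP smallPrimes ≤ (3 * 880484815731945) * denP smallPrimes :=
    Nat.le_of_ble_eq_true numeric
  have h5 : (4 * 1000000000000000) * (numP smallPrimes : ℝ) ≤
      (3 * 880484815731945) * (denP smallPrimes : ℝ) := by exact_mod_cast h4
  have h6 : (0 : ℝ) < denP smallPrimes := by exact_mod_cast h3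
  rw [← h2] at h5
  have h7 : (4 * 1000000000000000) * (smallPrimes.map tf).prod ≤ 3 * 880484815731945 := by
    have h8 : ((4 * 1000000000000000) * (smallPrimes.map tf).prod) * (denP smallPrimes : ℝ) ≤
      (3 * 880484815731945) * (denP smallPrimes : ℝ) := by linarith
    exact le_of_mul_le_mul_right h8 h6
  linarith

end Wolf6
end

section
/-!
# MP_a19cb6_nt: computation, part 0
-/
namespace Wolf6

theorem part00 (h : LB 1 77961019490254) :
    LB 131072 812883748834004 := by
  have h0 : LB 4 294167529946692 := LB.stepLow (m1 := 1) (m2 := 3) (v := 216206510456438) qok7 h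
    (by decide +kernel) (by norm_num) (by norm_num) (by norm_num) (by norm_num) (by norm_num)
  have h1 : LB 28 481913559339984 := LB.stepLow (m1 := 1) (m2 := 24) (v := 187746029393292) qokSmall h0
    (by decide +kernel) (by norm_num) (by norm_num) (by norm_num) (by norm_num) (by norm_num)
  have h2 : LB 4096 727380939611579 := LB.stepLow (m1 := 36) (m2 := 113) (v := 245467380271595) qok02 h1
    (by decide +kernel) (by norm_num) (by norm_num) (by norm_num) (by norm_num) (by norm_num)
  have h3 : LB 8192 747687586754062 := LB.step (n := 1) (m := 256) (v := 20306647142483) qok02 h2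
    (by decide +kernel) (by norm_num) (by norm_num) (by norm_num) (by norm_num) (by norm_num)
    (by norm_num)
  have h4 : LB 12288 758949398565907 := LB.step (n := 1) (m := 256) (v := 11261811811845) qok02 h3
    (by decide +kernel) (by norm_num) (by norm_num) (by norm_num) (by norm_num) (by norm_num)
    (by norm_num)
  have h5 : LB 16384 766327665773362 := LB.step (n := 1) (m := 256) (v := 7378267207455) qok02 h4
    (by decide +kernel) (by norm_num) (by norm_num) (by norm_num) (by norm_num) (by norm_num)
    (by norm_num)
  have h6 : LB 24576 776418273440152 := LB.step (n := 4) (m := 128) (v := 10090607666790) qok03 h5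
    (by decide +kernel) (by norm_num) (by norm_num) (by norm_num) (by norm_num) (by norm_num)
    (by norm_num)
  have h7 : LB 32768 783305604625339 := LB.step (n := 4) (m := 128) (v := 6887331185187) qok03 h6
    (by decide +kernel) (by norm_num) (by norm_num) (by norm_num) (by norm_num) (by norm_num)
    (by norm_num)
  have h8 : LB 40960 788462799870528 := LB.step (n := 4) (m := 128) (v := 5157195245189) qok03 h7
    (by decide +kernel) (by norm_num) (by norm_num) (by norm_num) (by norm_num) (by norm_num)
    (by norm_num)
  have h9 : LB 49152 792524810562590 := LB.step (n := 4) (m := 128) (v := 4062010692062) qok04 h8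
    (by decide +kernel) (by norm_num) (by norm_num) (by norm_num) (by norm_num) (by norm_num)
    (by norm_num)
  have h10 : LB 57344 795887737139265 := LB.step (n := 4) (m := 128) (v := 3362926576675) qok04 h9
    (by decide +kernel) (by norm_num) (by norm_num) (by norm_num) (by norm_num) (by norm_num)
    (by norm_num)
  have h11 : LB 65536 798695891759100 := LB.step (n := 4) (m := 128) (v := 2808154619835) qok04 h10
    (by decide +kernel) (by norm_num) (by norm_num) (by norm_num) (by norm_num) (by norm_num)
    (by norm_num)
  have h12 : LB 73728 801211821536543 := LB.step (n := 4) (m := 128) (v := 2515929777443) qok04 h11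
    (by decide +kernel) (by norm_num) (by norm_num) (by norm_num) (by norm_num) (by norm_num)
    (by norm_num)
  have h13 : LB 81920 803369230837921 := LB.step (n := 4) (m := 128) (v := 2157409301378) qok04 h12
    (by decide +kernel) (by norm_num) (by norm_num) (by norm_num) (by norm_num) (by norm_num)
    (by norm_num)
  have h14 : LB 90112 805337691696542 := LB.step (n := 4) (m := 128) (v := 1968460858621) qok04 h13
    (by decide +kernel) (by norm_num) (by norm_num) (by norm_num) (by norm_num) (by norm_num)
    (by norm_num)
  have h15 : LB 98304 807128570897407 := LB.step (n := 4) (m := 128) (v := 1790879200865) qok05 h14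
    (by decide +kernel) (by norm_num) (by norm_num) (by norm_num) (by norm_num) (by norm_num)
    (by norm_num)
  have h16 : LB 106496 808754297009156 := LB.step (n := 4) (m := 128) (v := 1625726111749) qok05 h15
    (by decide +kernel) (by norm_num) (by norm_num) (by norm_num) (by norm_num) (by norm_num)
    (by norm_num)
  have h17 : LB 114688 810241708839611 := LB.step (n := 4) (m := 128) (v := 1487411830455) qok05 h16
    (by decide +kernel) (by norm_num) (by norm_num) (by norm_num) (by norm_num) (by norm_num)
    (by norm_num)
  have h18 : LB 122880 811587409106068 := LB.step (n := 4) (m := 128) (v := 1345700266457) qok05 h17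
    (by decide +kernel) (by norm_num) (by norm_num) (by norm_num) (by norm_num) (by norm_num)
    (by norm_num)
  have h19 : LB 131072 812883748834004 := LB.step (n := 4) (m := 128) (v := 1296339727936) qok05 h18
    (by decide +kernel) (by norm_num) (by norm_num) (by norm_num) (by norm_num) (by norm_num)
    (by norm_num)
  exact h19

end Wolf6
end

section
/-!
# MP_a19cb6_nt: computation, part 1
-/
namespace Wolf6

theorem part01 (h : LB 131072 812883748834004) :
    LB 1441792 853742272472223 := by
  have h20 : LB 262144 825866394476786 := LB.step (n := 128) (m := 64) (v := 12982645642782) qok07 h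
    (by decide +kernel) (by norm_num) (by norm_num) (by norm_num) (by norm_num) (by norm_num)
    (by norm_num)
  have h21 : LB 393216 832916255858526 := LB.step (n := 128) (m := 64) (v := 7049861381740) qok08 h20
    (by decide +kernel) (by norm_num) (by norm_num) (by norm_num) (by norm_num) (by norm_num)
    (by norm_num)
  have h22 : LB 524288 837776010816199 := LB.step (n := 128) (m := 64) (v := 4859754957673) qok09 h21
    (by decide +kernel) (by norm_num) (by norm_num) (by norm_num) (by norm_num) (by norm_num)
    (by norm_num)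
  have h23 : LB 655360 841453007214472 := LB.step (n := 128) (m := 64) (v := 3676996398273) qok10 h22
    (by decide +kernel) (by norm_num) (by norm_num) (by norm_num) (by norm_num) (by norm_num)
    (by norm_num)
  have h24 : LB 786432 844387161327381 := LB.step (n := 128) (m := 64) (v := 2934154112909) qok11 h23
    (by decide +kernel) (by norm_num) (by norm_num) (by norm_num) (by norm_num) (by norm_num)
    (by norm_num)
  have h25 : LB 917504 846831296824605 := LB.step (n := 128) (m := 64) (v := 2444135497224) qok11 h24
    (by decide +kernel) (by norm_num) (by norm_num) (by norm_num) (by norm_num) (by norm_num)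
    (by norm_num)
  have h26 : LB 1048576 848913140003416 := LB.step (n := 128) (m := 64) (v := 2081843178811) qok12 h25
    (by decide +kernel) (by norm_num) (by norm_num) (by norm_num) (by norm_num) (by norm_num)
    (by norm_num)
  have h27 : LB 1179648 850720924380031 := LB.step (n := 128) (m := 64) (v := 1807784376615) qok13 h26
    (by decide +kernel) (by norm_num) (by norm_num) (by norm_num) (by norm_num) (by norm_num)
    (by norm_num)
  have h28 : LB 1310720 852317371437741 := LB.step (n := 128) (m := 64) (v := 1596447057710) qok13 h27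
    (by decide +kernel) (by norm_num) (by norm_num) (by norm_num) (by norm_num) (by norm_num)
    (by norm_num)
  have h29 : LB 1441792 853742272472223 := LB.step (n := 128) (m := 64) (v := 1424901034482) qok14 h28
    (by decide +kernel) (by norm_num) (by norm_num) (by norm_num) (by norm_num) (by norm_num)
    (by norm_num)
  exact h29

end Wolf6
end

section
/-!
# MP_a19cb6_nt: computation, part 2
-/
namespace Wolf6

theorem part02 (h : LB 1441792 853742272472223) :
    LB 2752512 863109713176645 := by
  have h30 : LB 1572864 855046173802627 := LB.step (n := 128) (m := 64) (v := 1303901330404) qok14 h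
    (by decide +kernel) (by norm_num) (by norm_num) (by norm_num) (by norm_num) (by norm_num)
    (by norm_num)
  have h31 : LB 1703936 856230069558260 := LB.step (n := 128) (m := 64) (v := 1183895755633) qok15 h30
    (by decide +kernel) (by norm_num) (by norm_num) (by norm_num) (by norm_num) (by norm_num)
    (by norm_num)
  have h32 : LB 1835008 857309654906634 := LB.step (n := 128) (m := 64) (v := 1079585348374) qok15 h31
    (by decide +kernel) (by norm_num) (by norm_num) (by norm_num) (by norm_num) (by norm_num)
    (by norm_num)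
  have h33 : LB 1966080 858316460463663 := LB.step (n := 128) (m := 64) (v := 1006805557029) qok16 h32
    (by decide +kernel) (by norm_num) (by norm_num) (by norm_num) (by norm_num) (by norm_num)
    (by norm_num)
  have h34 : LB 2097152 859253259011323 := LB.step (n := 128) (m := 64) (v := 936798547660) qok16 h33
    (by decide +kernel) (by norm_num) (by norm_num) (by norm_num) (by norm_num) (by norm_num)
    (by norm_num)
  have h35 : LB 2228224 860121763901829 := LB.step (n := 128) (m := 64) (v := 868504890506) qok16 h34
    (by decide +kernel) (by norm_num) (by norm_num) (by norm_num) (by norm_num) (by norm_num)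
    (by norm_num)
  have h36 : LB 2359296 860927451002232 := LB.step (n := 128) (m := 64) (v := 805687100403) qok17 h35
    (by decide +kernel) (by norm_num) (by norm_num) (by norm_num) (by norm_num) (by norm_num)
    (by norm_num)
  have h37 : LB 2490368 861701317384879 := LB.step (n := 128) (m := 64) (v := 773866382647) qok17 h36
    (by decide +kernel) (by norm_num) (by norm_num) (by norm_num) (by norm_num) (by norm_num)
    (by norm_num)
  have h38 : LB 2621440 862424735922679 := LB.step (n := 128) (m := 64) (v := 723418537800) qok18 h37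
    (by decide +kernel) (by norm_num) (by norm_num) (by norm_num) (by norm_num) (by norm_num)
    (by norm_num)
  have h39 : LB 2752512 863109713176645 := LB.step (n := 128) (m := 64) (v := 684977253966) qok18 h38
    (by decide +kernel) (by norm_num) (by norm_num) (by norm_num) (by norm_num) (by norm_num)
    (by norm_num)
  exact h39

end Wolf6
end

section
/-!
# MP_a19cb6_nt: computation, part 3
-/
namespace Wolf6

theorem part03 (h : LB 2752512 863109713176645) :
    LB 4063232 868458660790715 := by
  have h40 : LB 2883584 863762811452893 := LB.step (n := 128) (m := 64) (v := 653098276248) qok18 h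
    (by decide +kernel) (by norm_num) (by norm_num) (by norm_num) (by norm_num) (by norm_num)
    (by norm_num)
  have h41 : LB 3014656 864377697932347 := LB.step (n := 128) (m := 64) (v := 614886479454) qok19 h40
    (by decide +kernel) (by norm_num) (by norm_num) (by norm_num) (by norm_num) (by norm_num)
    (by norm_num)
  have h42 : LB 3145728 864972546510168 := LB.step (n := 128) (m := 64) (v := 594848577821) qok19 h41
    (by decide +kernel) (by norm_num) (by norm_num) (by norm_num) (by norm_num) (by norm_num)
    (by norm_num)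
  have h43 : LB 3276800 865531859263681 := LB.step (n := 128) (m := 64) (v := 559312753513) qok20 h42
    (by decide +kernel) (by norm_num) (by norm_num) (by norm_num) (by norm_num) (by norm_num)
    (by norm_num)
  have h44 : LB 3407872 866069316313967 := LB.step (n := 128) (m := 64) (v := 537457050286) qok20 h43
    (by decide +kernel) (by norm_num) (by norm_num) (by norm_num) (by norm_num) (by norm_num)
    (by norm_num)
  have h45 : LB 3538944 866584495400523 := LB.step (n := 128) (m := 64) (v := 515179086556) qok20 h44
    (by decide +kernel) (by norm_num) (by norm_num) (by norm_num) (by norm_num) (by norm_num)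
    (by norm_num)
  have h46 : LB 3670016 867082629291559 := LB.step (n := 128) (m := 64) (v := 498133891036) qok20 h45
    (by decide +kernel) (by norm_num) (by norm_num) (by norm_num) (by norm_num) (by norm_num)
    (by norm_num)
  have h47 : LB 3801088 867559030495528 := LB.step (n := 128) (m := 64) (v := 476401203969) qok21 h46
    (by decide +kernel) (by norm_num) (by norm_num) (by norm_num) (by norm_num) (by norm_num)
    (by norm_num)
  have h48 : LB 3932160 868017532837500 := LB.step (n := 128) (m := 64) (v := 458502341972) qok21 h47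
    (by decide +kernel) (by norm_num) (by norm_num) (by norm_num) (by norm_num) (by norm_num)
    (by norm_num)
  have h49 : LB 4063232 868458660790715 := LB.step (n := 128) (m := 64) (v := 441127953215) qok21 h48
    (by decide +kernel) (by norm_num) (by norm_num) (by norm_num) (by norm_num) (by norm_num)
    (by norm_num)
  exact h49

end Wolf6
end

section
/-!
# MP_a19cb6_nt: computation, part 4
-/
namespace Wolf6

theorem part04 (h : LB 4063232 868458660790715) :
    LB 5373952 872169001643478 := by
  have h50 : LB 4194304 868887577089582 := LB.step (n := 128) (m := 64) (v := 428916298867) qok22 h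
    (by decide +kernel) (by norm_num) (by norm_num) (by norm_num) (by norm_num) (by norm_num)
    (by norm_num)
  have h51 : LB 4325376 869300356775835 := LB.step (n := 128) (m := 64) (v := 412779686253) qok22 h50
    (by decide +kernel) (by norm_num) (by norm_num) (by norm_num) (by norm_num) (by norm_num)
    (by norm_num)
  have h52 : LB 4456448 869698199671381 := LB.step (n := 128) (m := 64) (v := 397842895546) qok22 h51
    (by decide +kernel) (by norm_num) (by norm_num) (by norm_num) (by norm_num) (by norm_num)
    (by norm_num)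
  have h53 : LB 4587520 870084799508015 := LB.step (n := 128) (m := 64) (v := 386599836634) qok22 h52
    (by decide +kernel) (by norm_num) (by norm_num) (by norm_num) (by norm_num) (by norm_num)
    (by norm_num)
  have h54 : LB 4718592 870457928872188 := LB.step (n := 128) (m := 64) (v := 373129364173) qok23 h53
    (by decide +kernel) (by norm_num) (by norm_num) (by norm_num) (by norm_num) (by norm_num)
    (by norm_num)
  have h55 : LB 4849664 870822794623340 := LB.step (n := 128) (m := 64) (v := 364865751152) qok23 h54
    (by decide +kernel) (by norm_num) (by norm_num) (by norm_num) (by norm_num) (by norm_num)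
    (by norm_num)
  have h56 : LB 4980736 871175019684936 := LB.step (n := 128) (m := 64) (v := 352225061596) qok23 h55
    (by decide +kernel) (by norm_num) (by norm_num) (by norm_num) (by norm_num) (by norm_num)
    (by norm_num)
  have h57 : LB 5111808 871513640912192 := LB.step (n := 128) (m := 64) (v := 338621227256) qok24 h56
    (by decide +kernel) (by norm_num) (by norm_num) (by norm_num) (by norm_num) (by norm_num)
    (by norm_num)
  have h58 : LB 5242880 871847585241893 := LB.step (n := 128) (m := 64) (v := 333944329701) qok24 h57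
    (by decide +kernel) (by norm_num) (by norm_num) (by norm_num) (by norm_num) (by norm_num)
    (by norm_num)
  have h59 : LB 5373952 872169001643478 := LB.step (n := 128) (m := 64) (v := 321416401585) qok24 h58
    (by decide +kernel) (by norm_num) (by norm_num) (by norm_num) (by norm_num) (by norm_num)
    (by norm_num)
  exact h59

end Wolf6
end

section
/-!
# MP_a19cb6_nt: computation, part 5
-/
namespace Wolf6

theorem part05 (h : LB 5373952 872169001643478) :
    LB 6684672 874996794986959 := by
  have h60 : LB 5505024 872484341230750 := LB.step (n := 128) (m := 64) (v := 315339587272) qok24 h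
    (by decide +kernel) (by norm_num) (by norm_num) (by norm_num) (by norm_num) (by norm_num)
    (by norm_num)
  have h61 : LB 5636096 872794829788651 := LB.step (n := 128) (m := 64) (v := 310488557901) qok25 h60
    (by decide +kernel) (by norm_num) (by norm_num) (by norm_num) (by norm_num) (by norm_num)
    (by norm_num)
  have h62 : LB 5767168 873094293666582 := LB.step (n := 128) (m := 64) (v := 299463877931) qok25 h61
    (by decide +kernel) (by norm_num) (by norm_num) (by norm_num) (by norm_num) (by norm_num)
    (by norm_num)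
  have h63 : LB 5898240 873387301530676 := LB.step (n := 128) (m := 64) (v := 293007864094) qok25 h62
    (by decide +kernel) (by norm_num) (by norm_num) (by norm_num) (by norm_num) (by norm_num)
    (by norm_num)
  have h64 : LB 6029312 873673098542717 := LB.step (n := 128) (m := 64) (v := 285797012041) qok25 h63
    (by decide +kernel) (by norm_num) (by norm_num) (by norm_num) (by norm_num) (by norm_num)
    (by norm_num)
  have h65 : LB 6160384 873949018429557 := LB.step (n := 128) (m := 64) (v := 275919886840) qok26 h64
    (by decide +kernel) (by norm_num) (by norm_num) (by norm_num) (by norm_num) (by norm_num)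
    (by norm_num)
  have h66 : LB 6291456 874220754315952 := LB.step (n := 128) (m := 64) (v := 271735886395) qok26 h65
    (by decide +kernel) (by norm_num) (by norm_num) (by norm_num) (by norm_num) (by norm_num)
    (by norm_num)
  have h67 : LB 6422528 874483312847791 := LB.step (n := 128) (m := 64) (v := 262558531839) qok26 h66
    (by decide +kernel) (by norm_num) (by norm_num) (by norm_num) (by norm_num) (by norm_num)
    (by norm_num)
  have h68 : LB 6553600 874741219421590 := LB.step (n := 128) (m := 64) (v := 257906573799) qok26 h67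
    (by decide +kernel) (by norm_num) (by norm_num) (by norm_num) (by norm_num) (by norm_num)
    (by norm_num)
  have h69 : LB 6684672 874996794986959 := LB.step (n := 128) (m := 64) (v := 255575565369) qok26 h68
    (by decide +kernel) (by norm_num) (by norm_num) (by norm_num) (by norm_num) (by norm_num)
    (by norm_num)
  exact h69

end Wolf6
end

section
/-!
# MP_a19cb6_nt: computation, part 6
-/
namespace Wolf6

theorem part06 (h : LB 6684672 874996794986959) :
    LB 7995392 877268929677767 := by
  have h70 : LB 6815744 875246758714201 := LB.step (n := 128) (m := 64) (v := 249963727242) qok27 h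
    (by decide +kernel) (by norm_num) (by norm_num) (by norm_num) (by norm_num) (by norm_num)
    (by norm_num)
  have h71 : LB 6946816 875487538277368 := LB.step (n := 128) (m := 64) (v := 240779563167) qok27 h70
    (by decide +kernel) (by norm_num) (by norm_num) (by norm_num) (by norm_num) (by norm_num)
    (by norm_num)
  have h72 : LB 7077888 875727149626317 := LB.step (n := 128) (m := 64) (v := 239611348949) qok27 h71
    (by decide +kernel) (by norm_num) (by norm_num) (by norm_num) (by norm_num) (by norm_num)
    (by norm_num)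
  have h73 : LB 7208960 875961209287746 := LB.step (n := 128) (m := 64) (v := 234059661429) qok27 h72
    (by decide +kernel) (by norm_num) (by norm_num) (by norm_num) (by norm_num) (by norm_num)
    (by norm_num)
  have h74 : LB 7340032 876190012229278 := LB.step (n := 128) (m := 64) (v := 228802941532) qok28 h73
    (by decide +kernel) (by norm_num) (by norm_num) (by norm_num) (by norm_num) (by norm_num)
    (by norm_num)
  have h75 : LB 7471104 876413394154599 := LB.step (n := 128) (m := 64) (v := 223381925321) qok28 h74
    (by decide +kernel) (by norm_num) (by norm_num) (by norm_num) (by norm_num) (by norm_num)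
    (by norm_num)
  have h76 : LB 7602176 876632647229715 := LB.step (n := 128) (m := 64) (v := 219253075116) qok28 h75
    (by decide +kernel) (by norm_num) (by norm_num) (by norm_num) (by norm_num) (by norm_num)
    (by norm_num)
  have h77 : LB 7733248 876850590988797 := LB.step (n := 128) (m := 64) (v := 217943759082) qok28 h76
    (by decide +kernel) (by norm_num) (by norm_num) (by norm_num) (by norm_num) (by norm_num)
    (by norm_num)
  have h78 : LB 7864320 877061130398916 := LB.step (n := 128) (m := 64) (v := 210539410119) qok28 h77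
    (by decide +kernel) (by norm_num) (by norm_num) (by norm_num) (by norm_num) (by norm_num)
    (by norm_num)
  have h79 : LB 7995392 877268929677767 := LB.step (n := 128) (m := 64) (v := 207799278851) qok29 h78
    (by decide +kernel) (by norm_num) (by norm_num) (by norm_num) (by norm_num) (by norm_num)
    (by norm_num)
  exact h79

end Wolf6
end

section
/-!
# MP_a19cb6_nt: computation, part 7
-/
namespace Wolf6

theorem part07 (h : LB 7995392 877268929677767) :
    LB 9306112 879165210177347 := by
  have h80 : LB 8126464 877472354196722 := LB.step (n := 128) (m := 64) (v := 203424518955) qok29 h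
    (by decide +kernel) (by norm_num) (by norm_num) (by norm_num) (by norm_num) (by norm_num)
    (by norm_num)
  have h81 : LB 8257536 877675107966543 := LB.step (n := 128) (m := 64) (v := 202753769821) qok29 h80
    (by decide +kernel) (by norm_num) (by norm_num) (by norm_num) (by norm_num) (by norm_num)
    (by norm_num)
  have h82 : LB 8388608 877873341730126 := LB.step (n := 128) (m := 64) (v := 198233763583) qok29 h81
    (by decide +kernel) (by norm_num) (by norm_num) (by norm_num) (by norm_num) (by norm_num)
    (by norm_num)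
  have h83 : LB 8519680 878066022882365 := LB.step (n := 128) (m := 64) (v := 192681152239) qok30 h82
    (by decide +kernel) (by norm_num) (by norm_num) (by norm_num) (by norm_num) (by norm_num)
    (by norm_num)
  have h84 : LB 8650752 878257351778751 := LB.step (n := 128) (m := 64) (v := 191328896386) qok30 h83
    (by decide +kernel) (by norm_num) (by norm_num) (by norm_num) (by norm_num) (by norm_num)
    (by norm_num)
  have h85 : LB 8781824 878445000365658 := LB.step (n := 128) (m := 64) (v := 187648586907) qok30 h84
    (by decide +kernel) (by norm_num) (by norm_num) (by norm_num) (by norm_num) (by norm_num)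
    (by norm_num)
  have h86 : LB 8912896 878628957215009 := LB.step (n := 128) (m := 64) (v := 183956849351) qok30 h85
    (by decide +kernel) (by norm_num) (by norm_num) (by norm_num) (by norm_num) (by norm_num)
    (by norm_num)
  have h87 : LB 9043968 878811502176524 := LB.step (n := 128) (m := 64) (v := 182544961515) qok30 h86
    (by decide +kernel) (by norm_num) (by norm_num) (by norm_num) (by norm_num) (by norm_num)
    (by norm_num)
  have h88 : LB 9175040 878989604419649 := LB.step (n := 128) (m := 64) (v := 178102243125) qok30 h87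
    (by decide +kernel) (by norm_num) (by norm_num) (by norm_num) (by norm_num) (by norm_num)
    (by norm_num)
  have h89 : LB 9306112 879165210177347 := LB.step (n := 128) (m := 64) (v := 175605757698) qok31 h88
    (by decide +kernel) (by norm_num) (by norm_num) (by norm_num) (by norm_num) (by norm_num)
    (by norm_num)
  exact h89

end Wolf6
end

section
/-!
# MP_a19cb6_nt: computation, part 8
-/
namespace Wolf6

theorem part08 (h : LB 9306112 879165210177347) :
    LB 10354688 880484815731946 := by
  have h90 : LB 9437184 879338728543888 := LB.step (n := 128) (m := 64) (v := 173518366541) qok31 h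
    (by decide +kernel) (by norm_num) (by norm_num) (by norm_num) (by norm_num) (by norm_num)
    (by norm_num)
  have h91 : LB 9568256 879510443381816 := LB.step (n := 128) (m := 64) (v := 171714837928) qok31 h90
    (by decide +kernel) (by norm_num) (by norm_num) (by norm_num) (by norm_num) (by norm_num)
    (by norm_num)
  have h92 : LB 9699328 879678488422643 := LB.step (n := 128) (m := 64) (v := 168045040827) qok31 h91
    (by decide +kernel) (by norm_num) (by norm_num) (by norm_num) (by norm_num) (by norm_num)
    (by norm_num)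
  have h93 : LB 9830400 879843759269488 := LB.step (n := 128) (m := 64) (v := 165270846845) qok31 h92
    (by decide +kernel) (by norm_num) (by norm_num) (by norm_num) (by norm_num) (by norm_num)
    (by norm_num)
  have h94 : LB 9961472 880007194009326 := LB.step (n := 128) (m := 64) (v := 163434739838) qok31 h93
    (by decide +kernel) (by norm_num) (by norm_num) (by norm_num) (by norm_num) (by norm_num)
    (by norm_num)
  have h95 : LB 10092544 880170290301350 := LB.step (n := 128) (m := 64) (v := 163096292024) qok32 h94
    (by decide +kernel) (by norm_num) (by norm_num) (by norm_num) (by norm_num) (by norm_num)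
    (by norm_num)
  have h96 : LB 10223616 880328861304508 := LB.step (n := 128) (m := 64) (v := 158571003158) qok32 h95
    (by decide +kernel) (by norm_num) (by norm_num) (by norm_num) (by norm_num) (by norm_num)
    (by norm_num)
  have h97 : LB 10354688 880484815731946 := LB.step (n := 128) (m := 64) (v := 155954427438) qok32 h96
    (by decide +kernel) (by norm_num) (by norm_num) (by norm_num) (by norm_num) (by norm_num)
    (by norm_num)
  exact h97

end Wolf6
end

section
/-!
# MP_a19cb6_nt: the lower bound for the sum over gap pairs below 310640640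
-/
namespace Wolf6

theorem total : LB 10354688 880484815731946 := by
  have h00 : LB 1 77961019490254 := LB.start
  have h01 := part00 h00
  have h02 := part01 h01
  have h03 := part02 h02
  have h04 := part03 h03
  have h05 := part04 h04
  have h06 := part05 h05
  have h07 := part06 h06
  have h08 := part07 h07
  have h09 := part08 h08
  exact h09

end Wolf6
end
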